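import Pool.Agent.MP_38a5c8_lc.H27.GadgetYes
import Pool.Agent.Shared.H27.TypedNP

set_option autoImplicit false

namespace Pool.Agent.MP_38a5c8_lc.H27

open Pool.Agent.Shared.H27 Pool.Agent.Shared.H56

/-- codes of kinds -/
abbrev KT := ℕ × ℕ × List Lit

/-- codes of vertices -/
abbrev VT := ℕ × Ent × List Ent × Reg × KT × List Lit

def kdec (k : KT) : Kind :=
  if k.1 = 0 then .U k.2.1 else if k.1 = 1 then .T (.sp k.2.1) else .T (.cl k.2.2)

def vdec (a : VT) : Vx :=
  if a.1 = 0 then .val a.2.1 else if a.1 = 1 then .lit a.2.2.1 a.2.1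
  else if a.1 = 2 then .slack a.2.2.1 a.2.1 else .reg a.2.2.2.1 (kdec a.2.2.2.2.1, a.2.2.2.2.2)

def klT (k : KT) : List Lit := if k.1 ≤ 1 then [] else negC k.2.2

theorem kindLits_kdec (k : KT) : kindLits (kdec k) = klT k := by
  obtain ⟨t, s, c⟩ := k
  rcases t with _ | _ | t <;> simp [kdec, klT, kindLits, tyLits]

def kcT (k k' : KT) : Bool :=
  if k.1 = 0 then (if k'.1 = 1 then decide (k.2.1 = k'.2.1) else true)
  else if k.1 = 1 then (if k'.1 ≤ 1 then decide (k.2.1 = k'.2.1) else false)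
  else (if k'.1 = 0 then true else if k'.1 = 1 then false else decide (k.2.2 = k'.2.2))

theorem kcT_iff (k k' : KT) : kcT k k' = true ↔ KCompat (kdec k) (kdec k') := by
  obtain ⟨t, s, c⟩ := k
  obtain ⟨t', s', c'⟩ := k'
  rcases t with _ | _ | t <;> rcases t' with _ | _ | t' <;>
    simp [kcT, kdec, KCompat, adm, eq_comm]

def trigT (e : Ent) (ρ : Reg) (k : KT) : Bool := decide (k.1 ≤ 1) && decide (e = ((ρ.1.1, k.2.1), 1))

theorem trigT_iff (e : Ent) (ρ : Reg) (k : KT) :
    trigT e ρ k = true ↔ ∃ s, spOf (kdec k) = some s ∧ e = ((ρ.1.1, s), 1) := by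
  obtain ⟨t, s, c⟩ := k
  rcases t with _ | _ | t <;> simp [trigT, kdec, spOf]

def compatT (a b : VT) : Bool :=
  if a.1 = 0 then
    (if b.1 = 0 then decide (a.2.1.1 = b.2.1.1) else if b.1 ≤ 2 then decide (a.2.1 = b.2.1)
      else trigT a.2.1 b.2.2.2.1 b.2.2.2.2.1)
  else if a.1 ≤ 2 then
    (if b.1 = 0 then decide (b.2.1 = a.2.1) else if b.1 ≤ 2 then
      decide (a.2.2.1 = b.2.2.1) && ((decide (a.1 = 1) && decide (b.1 = 1)) || decide (a.2.1 = b.2.1))
      else false)
  else
    (if b.1 = 0 then trigT b.2.1 a.2.2.2.1 a.2.2.2.2.1 else if b.1 ≤ 2 then false else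
      decide (a.2.2.2.1 = b.2.2.2.1) && (kcT a.2.2.2.2.1 b.2.2.2.2.1 &&
        noConf (a.2.2.2.2.2 ++ klT a.2.2.2.2.1) (b.2.2.2.2.2 ++ klT b.2.2.2.2.1)))

theorem compatT_iff (a b : VT) : compatT a b = true ↔ Compat (vdec a) (vdec b) := by
  obtain ⟨t, e, N, ρ, k, L⟩ := a
  obtain ⟨t', e', N', ρ', k', L'⟩ := b
  rcases t with _ | _ | _ | t <;> rcases t' with _ | _ | _ | t' <;>
    simp [compatT, vdec, Compat, trigT_iff, kcT_iff, kindLits_kdec]

/-- all lists of length `k` with entries from `l` -/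
def tuples {α : Type} : ℕ → List α → List (List α)
  | 0, _ => [[]]
  | k + 1, l => l.flatMap fun a => (tuples k l).map fun t => a :: t

theorem mem_tuples {α : Type} {k : ℕ} {l t : List α} :
    t ∈ tuples k l ↔ t.length = k ∧ ∀ a ∈ t, a ∈ l := by
  induction k generalizing t with
  | zero => cases t <;> simp [tuples]
  | succ k ih =>
    simp only [tuples, List.mem_flatMap, List.mem_map, ih]
    constructor
    · rintro ⟨a, ha, t', ⟨h1, h2⟩, rfl⟩
      exact ⟨by simp [h1], by simpa using ⟨ha, h2⟩⟩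
    · rintro ⟨h1, h2⟩
      cases t with
      | nil => simp at h1
      | cons a t => exact ⟨a, h2 a (by simp), t, ⟨by simpa using h1,
          fun b hb => h2 b (by simp [hb])⟩, rfl⟩

def litsOf (vs : List ℕ) : List Lit := vs.flatMap fun x => [(x, true), (x, false)]

theorem mem_litsOf {vs : List ℕ} {l : Lit} : l ∈ litsOf vs ↔ l.1 ∈ vs := by
  obtain ⟨x, b⟩ := l
  cases b <;> simp [litsOf]

def kindsT (ψ : CNF) (I : List ℕ) : List KT :=
  (I.map fun s => (0, s, [])) ++ (I.map fun s => (1, s, [])) ++ ψ.map fun c => (2, 0, c)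

theorem mem_kindsT {ψ : CNF} {I : List ℕ} {κ : Kind} :
    (∃ k ∈ kindsT ψ I, kdec k = κ) ↔ kindOK ψ I κ := by
  simp only [kindsT, List.mem_append, List.mem_map, or_and_right, exists_or,
    exists_exists_and_eq_and]
  rcases κ with s | s | c <;> simp [kdec, kindOK, tyOK]

/-- the list of codes of all vertices -/
def enumT (Φ : CNF) (regs : List (ℕ × CNF)) (vs : List ℕ) : List VT :=
  (vs.flatMap fun x => (List.range 7).flatMap fun s => (List.range 3).map fun a =>
    (0, ((x, s), a), [], ((0, []), []), (0, 0, []), [])) ++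
  ((ngs Φ vs).flatMap fun N => N.map fun e => (1, e, N, ((0, []), []), (0, 0, []), [])) ++
  ((ngs Φ vs).flatMap fun N => N.map fun e => (2, e, N, ((0, []), []), (0, 0, []), [])) ++
  regs.flatMap fun r => trips.flatMap fun I => (kindsT r.2 I).flatMap fun k =>
    ((tuples 6 (litsOf vs)).filter fun L => noConf (L ++ klT k) (L ++ klT k)).map fun L =>
      (3, ((0, 0), 0), [], (r, I), k, L)

theorem mem_enumT (J : Inst) (v : Vx) :
    v ∈ (enumT J.Φ J.regs J.vs).map vdec ↔ J.valid v := by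
  simp only [enumT, List.map_append, List.map_flatMap, List.map_map, List.mem_append,
    List.mem_flatMap, List.mem_map, List.mem_range, List.mem_filter, Function.comp_def, vdec]
  cases v with
  | val e =>
    obtain ⟨⟨x, s⟩, a⟩ := e
    simp [Inst.valid]
  | lit N e => simp [Inst.valid]
  | slack N e => simp [Inst.valid]
  | reg ρ X =>
    obtain ⟨r, I⟩ := ρ
    obtain ⟨κ, L⟩ := X
    simp only [Inst.valid, RValid, Six, ← mem_kindsT, mem_tuples, mem_litsOf]
    simp only [if_true, reduceCtorEq, and_false, exists_false, OfNat.ofNat_ne_zero,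
      OfNat.ofNat_ne_one, if_false, one_ne_zero, false_or, Nat.reduceEqDiff, Vx.reg.injEq,
      Prod.mk.injEq, List.length_map, List.mem_map, forall_exists_index, and_imp,
      forall_apply_eq_imp_iff₂]
    constructor
    · rintro ⟨r', h1, I', h2, k, h3, L', ⟨h4, h5⟩, ⟨rfl, rfl⟩, rfl, rfl⟩
      exact ⟨h1, h2, ⟨k, h3, rfl⟩, h4, by rw [kindLits_kdec]; exact h5⟩
    · rintro ⟨h1, h2, ⟨k, h3, rfl⟩, h4, h5⟩
      exact ⟨r, h1, I, h2, k, h3, L, ⟨h4, by rw [← kindLits_kdec]; exact h5⟩, ⟨rfl, rfl⟩, rfl, rfl⟩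

/-- the adjacency matrix of the gadget -/
def gadget (Φ : CNF) (regs : List (ℕ × CNF)) (vs : List ℕ) : List Bool :=
  matrixOf compatT (enumT Φ regs vs)

theorem edgeStrong_gadget (J : Inst) (hJ : J.WF) :
    EdgeStrong (graphOf (gadget J.Φ J.regs J.vs)) ↔ J.Yes := by
  rw [← edgeStrong_iff_yes J hJ _ (mem_enumT J)]
  have : gadget J.Φ J.regs J.vs =
      matrixOf (J.sys hJ).compat ((enumT J.Φ J.regs J.vs).map vdec) := by
    simp only [gadget, matrixOf, List.flatMap_map, List.map_map, Function.comp_def]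
    congr 1
    funext a
    congr 1
    funext b
    congr 1
    rw [Bool.eq_iff_iff, compatT_iff]
    simp [Inst.sys]
  rw [this]

section pt

variable {α : Type} [N487b59b3 α]

@[fun_prop] theorem pt_noConf {f g : α → List Lit} (hf : PT f) (hg : PT g) :
    PT fun a => noConf (f a) (g a) := by
  unfold noConf; fun_prop

@[fun_prop] theorem pt_klT {f : α → KT} (hf : PT f) : PT fun a => klT (f a) := by
  unfold klT negC; fun_prop

@[fun_prop] theorem pt_kcT {f g : α → KT} (hf : PT f) (hg : PT g) :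
    PT fun a => kcT (f a) (g a) := by
  unfold kcT; fun_prop

@[fun_prop] theorem pt_trigT {e : α → Ent} {ρ : α → Reg} {k : α → KT} (he : PT e) (hρ : PT ρ)
    (hk : PT k) : PT fun a => trigT (e a) (ρ a) (k a) := by
  unfold trigT; fun_prop

theorem pt_compatT' : PT fun p : VT × VT => compatT p.1 p.2 := by
  unfold compatT; fun_prop

@[fun_prop] theorem pt_compatT {f g : α → VT} (hf : PT f) (hg : PT g) :
    PT fun a => compatT (f a) (g a) := pt_compatT'.comp (hf.prodMk hg)

@[fun_prop] theorem pt_tuples {β : Type} [N487b59b3 β] (k : ℕ) {l : α → List β} (hl : PT l) :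
    PT fun a => tuples k (l a) := by
  induction k with
  | zero => exact PT.const _
  | succ k ih =>
    obtain ⟨T, h1, e1⟩ : ∃ T : α → List (List β), PT T ∧ ∀ a, tuples k (l a) = T a :=
      ⟨_, ih, fun _ => rfl⟩
    unfold tuples
    simp only [e1]
    fun_prop

@[fun_prop] theorem pt_ngs {Φ : α → CNF} {vs : α → List ℕ} (h1 : PT Φ) (h2 : PT vs) :
    PT fun a => ngs (Φ a) (vs a) := by
  unfold ngs ngClause fals; fun_prop

@[fun_prop] theorem pt_kindsT {ψ : α → CNF} {I : α → List ℕ} (h1 : PT ψ) (h2 : PT I) :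
    PT fun a => kindsT (ψ a) (I a) := by
  unfold kindsT; fun_prop

theorem pt_gadget {Φ : α → CNF} {regs : α → List (ℕ × CNF)} {vs : α → List ℕ} (h1 : PT Φ)
    (h2 : PT regs) (h3 : PT vs) : PT fun a => gadget (Φ a) (regs a) (vs a) := by
  have h : PT fun a => enumT (Φ a) (regs a) (vs a) := by
    unfold enumT litsOf; fun_prop
  obtain ⟨T, h1, e1⟩ : ∃ T : α → List VT, PT T ∧ ∀ a, enumT (Φ a) (regs a) (vs a) = T a :=
    ⟨_, h, fun _ => rfl⟩
  unfold gadget matrixOf
  simp only [e1]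
  fun_prop

end pt

end Pool.Agent.MP_38a5c8_lc.H27
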