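import Pool.Agent.MP_38a5c8_lc.H27.RegionSel

set_option autoImplicit false

namespace Pool.Agent.MP_38a5c8_lc.H27

open Pool.Agent.Shared.H27

/-- an entry: copy `s` of variable `x` has value `a` -/
abbrev Ent := (ℕ × ℕ) × ℕ

/-- the three-element sublists of `0, ..., 6` -/
def trips : List (List ℕ) := (List.range 7).sublistsLen 3

theorem mem_trips {I : List ℕ} : I ∈ trips ↔ I.Sublist (List.range 7) ∧ I.length = 3 :=
  List.mem_sublistsLen

theorem trips_spec {I : List ℕ} (h : I ∈ trips) :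
    ∃ a b c, I = [a, b, c] ∧ a ≠ b ∧ a ≠ c ∧ b ≠ c ∧ a < 7 ∧ b < 7 ∧ c < 7 := by
  obtain ⟨h1, h2⟩ := mem_trips.1 h
  obtain ⟨a, b, c, rfl⟩ := List.length_eq_three.1 h2
  have h3 := h1.nodup List.nodup_range
  have h4 : ∀ s ∈ [a, b, c], s < 7 := fun s hs => List.mem_range.1 (h1.subset hs)
  simp only [List.nodup_cons, List.mem_cons, List.not_mem_nil, or_false, not_or,
    not_false_eq_true, List.nodup_nil, and_true, forall_eq_or_imp, forall_eq] at h3 h4
  exact ⟨a, b, c, rfl, h3.1.1, h3.1.2, h3.2, h4.1, h4.2.1, h4.2.2⟩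

theorem lt_of_mem_trips {I : List ℕ} (h : I ∈ trips) {s : ℕ} (hs : s ∈ I) : s < 7 :=
  List.mem_range.1 ((mem_trips.1 h).1.subset hs)

theorem exists_trip (p : ℕ → Bool) (h : 3 ≤ ((List.range 7).filter p).length) :
    ∃ I ∈ trips, ∀ s ∈ I, p s = true :=
  ⟨((List.range 7).filter p).take 3,
    mem_trips.2 ⟨(List.take_sublist _ _).trans List.filter_sublist, by simp [h]⟩,
    fun s hs => (List.mem_filter.1 (List.mem_of_mem_take hs)).2⟩

theorem exists_avoid {I : List ℕ} (h : I ∈ trips) (x y : ℕ) : ∃ s ∈ I, s ≠ x ∧ s ≠ y := by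
  obtain ⟨a, b, c, rfl, h1, h2, h3, -⟩ := trips_spec h
  simp only [List.mem_cons, List.not_mem_nil, or_false, exists_eq_or_imp, exists_eq_left]
  omega

/-- the value of a copy that makes the literal false -/
def fals (l : Lit) : ℕ := if l.2 then 0 else 1

/-- the value of a copy of a variable with the given truth value -/
def bval (b : Bool) : ℕ := if b then 1 else 0

/-- all lists of three triples -/
def trip3 : List (List (List ℕ)) :=
  trips.flatMap fun a => trips.flatMap fun b => trips.map fun c => [a, b, c]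

/-- the forbidden pattern for a clause and three triples of copies -/
def ngClause (c : List Lit) (Is : List (List ℕ)) : List Ent :=
  (c.zip Is).flatMap fun p => p.2.map fun s => ((p.1.1, s), fals p.1)

/-- all forbidden patterns -/
def ngs (Φ : CNF) (vs : List ℕ) : List (List Ent) :=
  (Φ.flatMap fun c => trip3.map (ngClause c)) ++
    vs.flatMap fun x => trips.map fun I => I.map fun s => ((x, s), 2)

theorem mem_ngs {Φ : CNF} {vs : List ℕ} (hΦ : Cnf3 Φ vs) {N : List Ent} :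
    N ∈ ngs Φ vs ↔ (∃ l1 l2 l3, [l1, l2, l3] ∈ Φ ∧ ∃ I1 ∈ trips, ∃ I2 ∈ trips, ∃ I3 ∈ trips,
      N = (I1.map fun s => ((l1.1, s), fals l1)) ++ ((I2.map fun s => ((l2.1, s), fals l2)) ++
        (I3.map fun s => ((l3.1, s), fals l3)))) ∨
      ∃ x ∈ vs, ∃ I ∈ trips, N = I.map fun s => ((x, s), 2) := by
  simp only [ngs, trip3, List.mem_append, List.mem_flatMap, List.mem_map]
  refine or_congr ?_ ?_
  · constructor
    · rintro ⟨c, hc, _, ⟨I1, h1, I2, h2, I3, h3, rfl⟩, rfl⟩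
      obtain ⟨l1, l2, l3, rfl⟩ := List.length_eq_three.1 (hΦ c hc).1
      exact ⟨l1, l2, l3, hc, I1, h1, I2, h2, I3, h3, by simp [ngClause]⟩
    · rintro ⟨l1, l2, l3, hc, I1, h1, I2, h2, I3, h3, rfl⟩
      exact ⟨_, hc, _, ⟨I1, h1, I2, h2, I3, h3, rfl⟩, by simp [ngClause]⟩
  · simp only [eq_comm]

theorem ent_valid {Φ : CNF} {vs : List ℕ} (hΦ : Cnf3 Φ vs) {N : List Ent} (hN : N ∈ ngs Φ vs)
    {e : Ent} (he : e ∈ N) : e.1.1 ∈ vs ∧ e.1.2 < 7 ∧ e.2 < 3 := by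
  have hf : ∀ l, fals l < 3 := fun l => by unfold fals; split_ifs <;> norm_num
  rcases (mem_ngs hΦ).1 hN with ⟨l1, l2, l3, hc, I1, h1, I2, h2, I3, h3, rfl⟩ | ⟨x, hx, I, hI, rfl⟩
  · have hv := (hΦ _ hc).2
    simp only [List.mem_append, List.mem_map] at he
    rcases he with ⟨s, hs, rfl⟩ | ⟨s, hs, rfl⟩ | ⟨s, hs, rfl⟩
    · exact ⟨hv l1 (by simp), lt_of_mem_trips h1 hs, hf _⟩
    · exact ⟨hv l2 (by simp), lt_of_mem_trips h2 hs, hf _⟩
    · exact ⟨hv l3 (by simp), lt_of_mem_trips h3 hs, hf _⟩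
  · obtain ⟨s, hs, rfl⟩ := List.mem_map.1 he
    exact ⟨hx, lt_of_mem_trips hI hs, by norm_num⟩

/-- robustness: the intended solution avoids every forbidden pattern off any two variables -/
theorem exists_ent_avoid {Φ : CNF} {vs : List ℕ} (hΦ : Cnf3 Φ vs) {ν : ℕ → Bool}
    (hν : Satisfies ν Φ) {N : List Ent} (hN : N ∈ ngs Φ vs) (w1 w2 : ℕ × ℕ) :
    ∃ e ∈ N, e.1 ≠ w1 ∧ e.1 ≠ w2 ∧ bval (ν e.1.1) ≠ e.2 := by
  have key : ∀ (x a : ℕ) (I : List ℕ), I ∈ trips → bval (ν x) ≠ a →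
      ∃ e ∈ I.map fun s => (((x, s), a) : Ent), e.1 ≠ w1 ∧ e.1 ≠ w2 ∧ bval (ν e.1.1) ≠ e.2 := by
    intro x a I hI ha
    obtain ⟨s, hs, h1, h2⟩ := exists_avoid hI w1.2 w2.2
    exact ⟨_, List.mem_map.2 ⟨s, hs, rfl⟩, fun h => h1 (by rw [← h]), fun h => h2 (by rw [← h]), ha⟩
  have hf : ∀ l : Lit, ν l.1 = l.2 → bval (ν l.1) ≠ fals l := by
    intro l h
    rw [h]; unfold bval fals; cases l.2 <;> simp
  rcases (mem_ngs hΦ).1 hN with ⟨l1, l2, l3, hc, I1, h1, I2, h2, I3, h3, rfl⟩ | ⟨x, hx, I, hI, rfl⟩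
  · obtain ⟨l, hl, hl2⟩ := hν _ hc
    simp only [List.mem_cons, List.not_mem_nil, or_false] at hl
    rcases hl with rfl | rfl | rfl
    · obtain ⟨e, he, h⟩ := key _ _ _ h1 (hf _ hl2)
      exact ⟨e, by simp only [List.mem_append]; tauto, h⟩
    · obtain ⟨e, he, h⟩ := key _ _ _ h2 (hf _ hl2)
      exact ⟨e, by simp only [List.mem_append]; tauto, h⟩
    · obtain ⟨e, he, h⟩ := key _ _ _ h3 (hf _ hl2)
      exact ⟨e, by simp only [List.mem_append]; tauto, h⟩
  · exact key _ _ _ hI (by unfold bval; split_ifs <;> norm_num)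

theorem exists_two_ents {Φ : CNF} {vs : List ℕ} (hΦ : Cnf3 Φ vs) {N : List Ent}
    (hN : N ∈ ngs Φ vs) : ∃ e ∈ N, ∃ e' ∈ N, e ≠ e' := by
  have key : ∀ (x a : ℕ) (I : List ℕ), I ∈ trips →
      ∃ e ∈ I.map fun s => (((x, s), a) : Ent), ∃ e' ∈ I.map fun s => (((x, s), a) : Ent),
        e ≠ e' := by
    intro x a I hI
    obtain ⟨p, q, r, rfl, h1, -⟩ := trips_spec hI
    exact ⟨((x, p), a), by simp, ((x, q), a), by simp, by simpa using h1⟩
  rcases (mem_ngs hΦ).1 hN with ⟨l1, l2, l3, hc, I1, h1, I2, h2, I3, h3, rfl⟩ | ⟨x, hx, I, hI, rfl⟩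
  · obtain ⟨e, he, e', he', h⟩ := key l1.1 (fals l1) _ h1
    exact ⟨e, List.mem_append_left _ he, e', List.mem_append_left _ he', h⟩
  · exact key _ _ _ hI

theorem count_three (σ : ℕ → ℕ) (l : List ℕ) (h : ∀ s ∈ l, σ s < 3) :
    (l.filter fun s => decide (σ s = 0)).length + (l.filter fun s => decide (σ s = 1)).length +
      (l.filter fun s => decide (σ s = 2)).length = l.length := by
  induction l with
  | nil => rfl
  | cons a l ih =>
    have h1 := ih fun s hs => h s (List.mem_cons_of_mem _ hs)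
    have h2 := h a List.mem_cons_self
    simp only [List.filter_cons, List.length_cons]
    obtain h3 | h3 | h3 : σ a = 0 ∨ σ a = 1 ∨ σ a = 2 := by omega
    all_goals simp [h3]; omega

/-- soundness: a solution of the constraint system gives a satisfying assignment -/
theorem satisfies_of_csp {Φ : CNF} {vs : List ℕ} (hΦ : Cnf3 Φ vs) (σ : ℕ × ℕ → ℕ)
    (h3 : ∀ x ∈ vs, ∀ s < 7, σ (x, s) < 3) (hN : ∀ N ∈ ngs Φ vs, ∃ e ∈ N, σ e.1 ≠ e.2) :
    ∃ ν : ℕ → Bool, Satisfies ν Φ ∧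
      ∀ x, ν x = true → ∃ I ∈ trips, ∀ s ∈ I, σ (x, s) = 1 := by
  let ν : ℕ → Bool := fun x =>
    decide (3 ≤ ((List.range 7).filter fun s => decide (σ (x, s) = 1)).length)
  have h1 : ∀ x, ν x = true → ∃ I ∈ trips, ∀ s ∈ I, σ (x, s) = 1 := by
    intro x hx
    obtain ⟨I, hI, h⟩ := exists_trip (fun s => decide (σ (x, s) = 1)) (by simpa [ν] using hx)
    exact ⟨I, hI, fun s hs => by simpa using h s hs⟩
  have h0 : ∀ x ∈ vs, ν x = false → ∃ I ∈ trips, ∀ s ∈ I, σ (x, s) = 0 := by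
    intro x hx hν
    have c1 : ¬ 3 ≤ ((List.range 7).filter fun s => decide (σ (x, s) = 1)).length := by
      simpa [ν] using hν
    have c2 : ¬ 3 ≤ ((List.range 7).filter fun s => decide (σ (x, s) = 2)).length := by
      intro h
      obtain ⟨I, hI, h⟩ := exists_trip _ h
      obtain ⟨e, he, h2⟩ := hN _ ((mem_ngs hΦ).2 (Or.inr ⟨x, hx, I, hI, rfl⟩))
      obtain ⟨s, hs, rfl⟩ := List.mem_map.1 he
      exact h2 (by simpa using h s hs)
    have c3 := count_three (fun s => σ (x, s)) (List.range 7)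
      fun s hs => h3 x hx s (List.mem_range.1 hs)
    rw [List.length_range] at c3
    obtain ⟨I, hI, h⟩ := exists_trip (fun s => decide (σ (x, s) = 0)) (by omega)
    exact ⟨I, hI, fun s hs => by simpa using h s hs⟩
  refine ⟨ν, fun c hc => ?_, h1⟩
  by_contra hcon
  push Not at hcon
  have key : ∀ l ∈ c, ∃ I ∈ trips, ∀ s ∈ I, σ (l.1, s) = fals l := by
    intro l hl
    have := hcon l hl
    obtain ⟨x, b⟩ := l
    cases b
    · exact h1 x (by simpa using this)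
    · exact h0 x ((hΦ c hc).2 _ hl) (by simpa using this)
  obtain ⟨l1, l2, l3, rfl⟩ := List.length_eq_three.1 (hΦ c hc).1
  obtain ⟨I1, g1, k1⟩ := key l1 (by simp)
  obtain ⟨I2, g2, k2⟩ := key l2 (by simp)
  obtain ⟨I3, g3, k3⟩ := key l3 (by simp)
  obtain ⟨e, he, h2⟩ := hN _ ((mem_ngs hΦ).2 (Or.inl ⟨l1, l2, l3, hc, I1, g1, I2, g2, I3, g3, rfl⟩))
  simp only [List.mem_append, List.mem_map] at he
  rcases he with ⟨s, hs, rfl⟩ | ⟨s, hs, rfl⟩ | ⟨s, hs, rfl⟩
  exacts [h2 (k1 s hs), h2 (k2 s hs), h2 (k3 s hs)]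

end Pool.Agent.MP_38a5c8_lc.H27
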