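import Mathlib
import Pool.Prelude.Def_F_458e953d

set_option autoImplicit false

namespace Pool.Agent.MP_38a5c8_lc.H27

/-- A clique is strong if it meets every inclusion-maximal stable set. -/
def IsStrongClique {V : Type} (G : SimpleGraph V) (C : Set V) : Prop :=
  G.IsClique C ∧ ∀ S : Set V, Maximal G.IsIndepSet S → (C ∩ S).Nonempty

/-- Every edge is contained in a strong clique. -/
def EdgeStrong {V : Type} (G : SimpleGraph V) : Prop :=
  ∀ u v, G.Adj u v → ∃ C : Set V, IsStrongClique G C ∧ u ∈ C ∧ v ∈ C

/-- The graph written by a bit string, read as a row-by-row adjacency matrix of side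
`n = sqrt (length)`: distinct `i`, `j` are adjacent if bit `i n + j` or bit `j n + i` is set. -/
def graphOf (x : List Bool) : SimpleGraph (Fin (Nat.sqrt x.length)) :=
  SimpleGraph.fromRel fun i j => x.getD (i.1 * Nat.sqrt x.length + j.1) false = true

open Classical in
/-- The decision problem EDGE-STRONG on bit strings. -/
noncomputable def edgeStrongLang : N68a2faeb.DecisionProblem :=
  fun x => decide (EdgeStrong (graphOf x))

/-- The class of problems decided in polynomial time with one round of parallel queries to an
oracle in NP. -/
def ParallelNP : N68a2faeb.DecisionComplexityClass :=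
  {L | ∃ A ∈ N68a2faeb.NP, ∃ (q : List Bool → List (List Bool))
    (ev : List Bool × List Bool → Bool), N68a2faeb.IsPolyTime q ∧ N68a2faeb.IsPolyTime ev ∧
      ∀ x, L x = ev (x, (q x).map A)}

end Pool.Agent.MP_38a5c8_lc.H27
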