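import Pool.Agent.MP_38a5c8_lc.H27.Defs

set_option autoImplicit false

namespace Pool.Agent.MP_38a5c8_lc.H27

/-- the adjacency matrix, row by row, of the graph on a list of labels in which two
positions are adjacent when the labels are not compatible -/
def matrixOf {V : Type} (compat : V → V → Bool) (vs : List V) : List Bool :=
  vs.flatMap fun u => vs.map fun v => !compat u v

theorem length_matrixOf {V : Type} (compat : V → V → Bool) (vs : List V) :
    (matrixOf compat vs).length = vs.length * vs.length := by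
  simp [matrixOf, List.length_flatMap]

theorem getD_flatMap_map {V : Type} (f : V → V → Bool) (us vs : List V) (i j : ℕ)
    (hi : i < us.length) (hj : j < vs.length) :
    (us.flatMap fun u => vs.map fun v => f u v).getD (i * vs.length + j) false =
      f us[i] vs[j] := by
  induction us generalizing i with
  | nil => simp at hi
  | cons u us ih =>
    rw [List.flatMap_cons]
    cases i with
    | zero =>
      rw [List.getD_append _ _ _ _ (by simpa using hj)]
      simp [List.getD_eq_getElem?_getD, hj]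
    | succ i =>
      rw [List.getD_append_right _ _ _ _ (by simp; nlinarith)]
      have : (i + 1) * vs.length + j - (vs.map fun v => f u v).length = i * vs.length + j := by
        simp [Nat.succ_mul]; omega
      rw [this, ih i (by simpa using hi)]
      simp

/-- An event system: labels are sets of points, compatible labels share points. -/
structure EventSystem (V Ω : Type) where
  valid : V → Prop
  pt : Ω → Prop
  compat : V → V → Bool
  mem : Ω → V → Prop
  compat_of_mem : ∀ ω u v, pt ω → valid u → valid v → mem ω u → mem ω v → compat u v = true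
  helly : ∀ S : Set V, (∀ v ∈ S, valid v) → (∀ u ∈ S, ∀ v ∈ S, u ≠ v → compat u v = true) →
    ∃ ω, pt ω ∧ ∀ v ∈ S, mem ω v

namespace EventSystem

variable {V Ω : Type} (E : EventSystem V Ω)

theorem exists_mem {v : V} (hv : E.valid v) : ∃ ω, E.pt ω ∧ E.mem ω v := by
  obtain ⟨ω, h1, h2⟩ := E.helly {v} (by simpa) (by simp)
  exact ⟨ω, h1, h2 v rfl⟩

theorem compat_self {v : V} (hv : E.valid v) : E.compat v v = true := by
  obtain ⟨ω, h1, h2⟩ := E.exists_mem hv
  exact E.compat_of_mem ω v v h1 hv hv h2 h2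

/-- a selector assigns to every point an event containing it, and these events partition -/
structure IsSelector (e : Ω → V) : Prop where
  valid : ∀ ω, E.pt ω → E.valid (e ω)
  mem : ∀ ω, E.pt ω → E.mem ω (e ω)
  const : ∀ ω ω', E.pt ω → E.pt ω' → E.mem ω' (e ω) → e ω' = e ω

/-- a point whose set of events is maximal -/
def MaxPt (ω : Ω) : Prop :=
  E.pt ω ∧ ∀ ω', E.pt ω' → (∀ v, E.valid v → E.mem ω v → E.mem ω' v) →
    ∀ v, E.valid v → E.mem ω' v → E.mem ω v

section graph

variable {I : Type} (G : SimpleGraph I) (lab : I → V) (hval : ∀ i, E.valid (lab i))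
  (hsurj : ∀ v, E.valid v → ∃ i, lab i = v)
  (hadj : ∀ i j, G.Adj i j ↔ i ≠ j ∧ (E.compat (lab i) (lab j) = false ∨
    E.compat (lab j) (lab i) = false))

include hval hadj in
theorem indep_of_pt {ω : Ω} (hω : E.pt ω) : G.IsIndepSet {i | E.mem ω (lab i)} := by
  intro i hi j hj _ h
  rw [hadj] at h
  have h1 := E.compat_of_mem ω _ _ hω (hval i) (hval j) hi hj
  have h2 := E.compat_of_mem ω _ _ hω (hval j) (hval i) hj hi
  simp [h1, h2] at h

include hval hadj in
theorem exists_pt_of_indep {S : Set I} (hS : G.IsIndepSet S) :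
    ∃ ω, E.pt ω ∧ S ⊆ {i | E.mem ω (lab i)} := by
  obtain ⟨ω, h1, h2⟩ := E.helly (lab '' S) (by rintro _ ⟨i, -, rfl⟩; exact hval i) (by
    rintro _ ⟨i, hi, rfl⟩ _ ⟨j, hj, rfl⟩ hne
    have hij : i ≠ j := fun h => hne (by rw [h])
    have : ¬ G.Adj i j := hS hi hj hij
    rw [hadj] at this
    by_contra hc
    exact this ⟨hij, Or.inl (by simpa using hc)⟩)
  exact ⟨ω, h1, fun i hi => h2 _ ⟨i, hi, rfl⟩⟩

include hval hsurj hadj in
theorem edgeStrong_of_selectors
    (h : ∀ u v, E.valid u → E.valid v → (∀ ω, E.pt ω → E.mem ω u → ¬ E.mem ω v) →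
      ∃ e, E.IsSelector e ∧ (∀ ω, E.pt ω → E.mem ω u → e ω = u) ∧
        (∀ ω, E.pt ω → E.mem ω v → e ω = v)) : EdgeStrong G := by
  classical
  intro i j hij
  have hij' := (hadj i j).1 hij
  have hdisj : ∀ ω, E.pt ω → E.mem ω (lab i) → ¬ E.mem ω (lab j) := by
    intro ω hω h1 h2
    have h3 := E.compat_of_mem ω _ _ hω (hval i) (hval j) h1 h2
    have h4 := E.compat_of_mem ω _ _ hω (hval j) (hval i) h2 h1
    simp [h3, h4] at hij'
  have hne : lab i ≠ lab j := by
    intro h
    obtain ⟨ω, h1, h2⟩ := E.exists_mem (hval i)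
    exact hdisj ω h1 h2 (h ▸ h2)
  obtain ⟨e, he, hei, hej⟩ := h _ _ (hval i) (hval j) hdisj
  have : Nonempty I := ⟨i⟩
  choose! rep0 hrep0 using fun v (hv : E.valid v) => (hsurj v hv)
  let rep : V → I := fun v => if v = lab i then i else if v = lab j then j else rep0 v
  have hrep : ∀ v, E.valid v → lab (rep v) = v := by
    intro v hv
    simp only [rep]
    split_ifs with h1 h2
    · exact h1.symm
    · exact h2.symm
    · exact hrep0 v hv
  refine ⟨{k | ∃ ω, E.pt ω ∧ k = rep (e ω)}, ⟨?_, ?_⟩, ?_, ?_⟩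
  · rintro _ ⟨ω, hω, rfl⟩ _ ⟨ω', hω', rfl⟩ hne2
    rw [hadj, hrep _ (he.valid ω hω), hrep _ (he.valid ω' hω')]
    refine ⟨hne2, ?_⟩
    by_contra hc
    simp only [not_or, Bool.not_eq_false] at hc
    obtain ⟨ω2, h1, h2⟩ := E.helly {e ω, e ω'} (by
      rintro v (rfl | rfl)
      exacts [he.valid ω hω, he.valid ω' hω']) (by
      rintro u (rfl | rfl) v (rfl | rfl) huv
      exacts [absurd rfl huv, hc.1, hc.2, absurd rfl huv])
    have h3 := he.const ω ω2 hω h1 (h2 _ (by simp))
    have h4 := he.const ω' ω2 hω' h1 (h2 _ (by simp))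
    exact hne2 (by rw [← h3, ← h4])
  · intro S hS
    obtain ⟨ω, h1, h2⟩ := E.exists_pt_of_indep G lab hval hadj hS.prop
    have h3 := hS.le_of_ge (E.indep_of_pt G lab hval hadj h1) h2
    refine ⟨rep (e ω), ⟨ω, h1, rfl⟩, h3 ?_⟩
    show E.mem ω (lab (rep (e ω)))
    rw [hrep _ (he.valid ω h1)]
    exact he.mem ω h1
  · obtain ⟨ω, h1, h2⟩ := E.exists_mem (hval i)
    exact ⟨ω, h1, by simp [rep, hei ω h1 h2]⟩
  · obtain ⟨ω, h1, h2⟩ := E.exists_mem (hval j)
    exact ⟨ω, h1, by simp [rep, hej ω h1 h2, hne.symm]⟩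

include hval hsurj hadj in
theorem cover_of_edgeStrong (hG : EdgeStrong G) (u v : V) (hu : E.valid u) (hv : E.valid v)
    (huv : ∀ ω, E.pt ω → E.mem ω u → ¬ E.mem ω v) :
    ∃ C : Set V, (∀ a ∈ C, E.valid a) ∧
      (∀ a ∈ C, ∀ b ∈ C, ∀ ω, E.pt ω → E.mem ω a → E.mem ω b → a = b) ∧
      ∀ ω, E.MaxPt ω → ∃ a ∈ C, E.mem ω a := by
  obtain ⟨i, rfl⟩ := hsurj u hu
  obtain ⟨j, rfl⟩ := hsurj v hv
  have hij : G.Adj i j := by
    rw [hadj]
    constructor
    · rintro rfl
      obtain ⟨ω, h1, h2⟩ := E.exists_mem hu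
      exact huv ω h1 h2 h2
    · by_contra hc
      simp only [not_or, Bool.not_eq_false] at hc
      obtain ⟨ω, h1, h2⟩ := E.helly {lab i, lab j} (by
        rintro v (rfl | rfl)
        exacts [hu, hv]) (by
        rintro u (rfl | rfl) v (rfl | rfl) huv
        exacts [absurd rfl huv, hc.1, hc.2, absurd rfl huv])
      exact huv ω h1 (h2 _ (by simp)) (h2 _ (by simp))
  obtain ⟨C, ⟨hC1, hC2⟩, -, -⟩ := hG i j hij
  refine ⟨lab '' C, by rintro _ ⟨k, -, rfl⟩; exact hval k, ?_, ?_⟩
  · rintro _ ⟨a, ha, rfl⟩ _ ⟨b, hb, rfl⟩ ω hω h1 h2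
    by_contra hne
    have hab : a ≠ b := fun h => hne (by rw [h])
    exact E.indep_of_pt G lab hval hadj hω h1 h2 hab (hC1 ha hb hab)
  · intro ω hω
    have hmax : Maximal G.IsIndepSet {i | E.mem ω (lab i)} := by
      refine ⟨E.indep_of_pt G lab hval hadj hω.1, fun S hS hsub k hk => ?_⟩
      obtain ⟨ω', h1, h2⟩ := E.exists_pt_of_indep G lab hval hadj hS
      refine hω.2 ω' h1 (fun v hv hm => ?_) _ (hval k) (h2 hk)
      obtain ⟨l, rfl⟩ := hsurj v hv
      exact h2 (hsub hm)
    obtain ⟨k, hk1, hk2⟩ := hC2 _ hmax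
    exact ⟨lab k, ⟨k, hk1, rfl⟩, hk2⟩

end graph

/-- labels of the vertices of the graph written by `matrixOf` -/
theorem exists_lab (vs : List V) (hvs : ∀ v, v ∈ vs ↔ E.valid v) :
    ∃ lab : Fin (Nat.sqrt (matrixOf E.compat vs).length) → V, (∀ i, E.valid (lab i)) ∧
      (∀ v, E.valid v → ∃ i, lab i = v) ∧
      ∀ i j, (graphOf (matrixOf E.compat vs)).Adj i j ↔ i ≠ j ∧
        (E.compat (lab i) (lab j) = false ∨ E.compat (lab j) (lab i) = false) := by
  have hn : Nat.sqrt (matrixOf E.compat vs).length = vs.length := by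
    rw [length_matrixOf, Nat.sqrt_eq]
  refine ⟨fun i => vs[i.1]'(hn ▸ i.2), fun i => (hvs _).1 (List.getElem_mem _), fun v hv => ?_,
    fun i j => ?_⟩
  · obtain ⟨k, hk, rfl⟩ := List.getElem_of_mem ((hvs v).2 hv)
    exact ⟨⟨k, hn ▸ hk⟩, rfl⟩
  · have key : ∀ a b : Fin (Nat.sqrt (matrixOf E.compat vs).length),
        (matrixOf E.compat vs).getD (a.1 * Nat.sqrt (matrixOf E.compat vs).length + b.1) false =
          !E.compat (vs[a.1]'(hn ▸ a.2)) (vs[b.1]'(hn ▸ b.2)) := by
      intro a b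
      have := getD_flatMap_map (fun u v => !E.compat u v) vs vs a.1 b.1 (hn ▸ a.2) (hn ▸ b.2)
      rw [← this]
      congr 3
    simp only [graphOf, SimpleGraph.fromRel_adj, key, Bool.not_eq_eq_eq_not, Bool.not_true]

end EventSystem

end Pool.Agent.MP_38a5c8_lc.H27
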