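import Pool.Agent.MP_38a5c8_lc.H27.Csp
import Pool.Agent.MP_38a5c8_lc.H27.Events

set_option autoImplicit false

namespace Pool.Agent.MP_38a5c8_lc.H27

open Pool.Agent.Shared.H27

/-- a region: a trigger variable, a formula, and a triple of copies -/
abbrev Reg := (ℕ × CNF) × List ℕ

/-- vertices -/
inductive Vx
  | val (e : Ent)
  | lit (N : List Ent) (e : Ent)
  | slack (N : List Ent) (e : Ent)
  | reg (ρ : Reg) (X : Kind × List Lit)

/-- points -/
inductive Pt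
  | row (w : ℕ × ℕ)
  | rowN (N : List Ent)
  | tri (N : List Ent) (e : Ent)
  | rp (ρ : Reg) (θ : Option Ty) (y : ℕ → Bool)

/-- an instance of the intermediate problem -/
structure Inst where
  Φ : CNF
  regs : List (ℕ × CNF)
  vs : List ℕ

/-- well-formed instances -/
structure Inst.WF (J : Inst) : Prop where
  zero : 0 ∈ J.vs
  hΦ : Cnf3 J.Φ J.vs
  hreg : ∀ r ∈ J.regs, r.1 ∈ J.vs ∧ Cnf3 r.2 J.vs

/-- the question asked of an instance -/
def Inst.Yes (J : Inst) : Prop :=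
  ∃ ν : ℕ → Bool, Satisfies ν J.Φ ∧ ∀ r ∈ J.regs, ν r.1 = true → ¬ Sat r.2

def Inst.valid (J : Inst) : Vx → Prop
  | .val e => e.1.1 ∈ J.vs ∧ e.1.2 < 7 ∧ e.2 < 3
  | .lit N e => N ∈ ngs J.Φ J.vs ∧ e ∈ N
  | .slack N e => N ∈ ngs J.Φ J.vs ∧ e ∈ N
  | .reg ρ X => ρ.1 ∈ J.regs ∧ ρ.2 ∈ trips ∧ RValid ρ.1.2 ρ.2 J.vs X

def Inst.pt (J : Inst) : Pt → Prop
  | .row w => w.1 ∈ J.vs ∧ w.2 < 7
  | .rowN N => N ∈ ngs J.Φ J.vs
  | .tri N e => N ∈ ngs J.Φ J.vs ∧ e ∈ N
  | .rp ρ θ y => ρ.1 ∈ J.regs ∧ ρ.2 ∈ trips ∧ RPt ρ.1.2 ρ.2 θ y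

def pmem : Pt → Vx → Prop
  | .row w, .val e => e.1 = w
  | .rowN N, .lit N' _ => N' = N
  | .tri _ e, .val e' => e' = e
  | .tri N e, .lit N' e' => N' = N ∧ e' = e
  | .tri N e, .slack N' e' => N' = N ∧ e' = e
  | .rp ρ θ _, .val e => ∃ s, θ = some (.sp s) ∧ e = ((ρ.1.1, s), 1)
  | .rp ρ θ y, .reg ρ' X => ρ' = ρ ∧ RMem θ y X
  | _, _ => False

/-- the special layer that an event of this kind meets -/
def spOf : Kind → Option ℕ
  | .U s => some s
  | .T (.sp s) => some s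
  | .T (.cl _) => none

theorem adm_sp_iff {κ : Kind} {s : ℕ} : adm κ (some (.sp s)) ↔ spOf κ = some s := by
  rcases κ with s' | s' | c <;> simp [adm, spOf, eq_comm]

def KCompat (κ κ' : Kind) : Prop :=
  (∀ τ, κ' = .T τ → adm κ (some τ)) ∧ ∀ τ, κ = .T τ → adm κ' (some τ)

def Compat : Vx → Vx → Prop
  | .val e, .val e' => e.1 = e'.1
  | .val e, .lit _ e' => e = e'
  | .lit _ e', .val e => e = e'
  | .val e, .slack _ e' => e = e'
  | .slack _ e', .val e => e = e'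
  | .val e, .reg ρ X => ∃ s, spOf X.1 = some s ∧ e = ((ρ.1.1, s), 1)
  | .reg ρ X, .val e => ∃ s, spOf X.1 = some s ∧ e = ((ρ.1.1, s), 1)
  | .lit N _, .lit N' _ => N = N'
  | .lit N e, .slack N' e' => N = N' ∧ e = e'
  | .slack N e, .lit N' e' => N = N' ∧ e = e'
  | .slack N e, .slack N' e' => N = N' ∧ e = e'
  | .reg ρ X, .reg ρ' X' => ρ = ρ' ∧ KCompat X.1 X'.1 ∧
      noConf (X.2 ++ kindLits X.1) (X'.2 ++ kindLits X'.1) = true
  | _, _ => False

theorem compat_of_pmem (J : Inst) (ω : Pt) (u v : Vx) (hω : J.pt ω) (h1 : pmem ω u)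
    (h2 : pmem ω v) : Compat u v := by
  cases ω with
  | row w => cases u <;> cases v <;> simp_all [pmem, Compat]
  | rowN N => cases u <;> cases v <;> simp_all [pmem, Compat]
  | tri N e => cases u <;> cases v <;> simp_all [pmem, Compat]
  | rp ρ θ y =>
    cases u <;> cases v <;> simp only [pmem, Compat] at h1 h2 ⊢
    · obtain ⟨s, rfl, rfl⟩ := h1
      obtain ⟨s', h, rfl⟩ := h2
      cases h; rfl
    · obtain ⟨s, rfl, rfl⟩ := h1
      obtain ⟨rfl, h⟩ := h2
      exact ⟨s, adm_sp_iff.1 h.1, rfl⟩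
    · obtain ⟨s, rfl, rfl⟩ := h2
      obtain ⟨rfl, h⟩ := h1
      exact ⟨s, adm_sp_iff.1 h.1, rfl⟩
    · obtain ⟨rfl, h⟩ := h1
      obtain ⟨rfl, h'⟩ := h2
      refine ⟨rfl, ⟨fun τ hτ => ?_, fun τ hτ => ?_⟩,
        noConf_of_satL (satL_append.2 ⟨h.2, satL_kindLits hω.2.2 h.1⟩)
          (satL_append.2 ⟨h'.2, satL_kindLits hω.2.2 h'.1⟩)⟩
      · have := h'.1
        rw [hτ] at this
        exact this ▸ h.1
      · have := h.1
        rw [hτ] at this
        exact this ▸ h'.1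

theorem mem_of_spOf {ψ : CNF} {I : List ℕ} {κ : Kind} {s : ℕ} (h : kindOK ψ I κ)
    (hs : spOf κ = some s) : s ∈ I := by
  rcases κ with s' | s' | c <;> simp only [spOf, Option.some.injEq, reduceCtorEq] at hs <;>
    exact hs ▸ h

theorem helly_vx (J : Inst) (hJ : J.WF) (S : Set Vx) (hv : ∀ v ∈ S, J.valid v)
    (hc : ∀ u ∈ S, ∀ v ∈ S, u ≠ v → Compat u v) : ∃ ω, J.pt ω ∧ ∀ v ∈ S, pmem ω v := by
  by_cases c1 : ∃ ρ X, Vx.reg ρ X ∈ S
  · obtain ⟨ρ, X, hX⟩ := c1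
    have hXv := hv _ hX
    have hform : ∀ v ∈ S, (∃ X', v = .reg ρ X') ∨
        ∃ s, spOf X.1 = some s ∧ v = .val ((ρ.1.1, s), 1) := by
      intro v hvS
      by_cases h : Vx.reg ρ X = v
      · exact Or.inl ⟨X, h.symm⟩
      · have := hc _ hX _ hvS h
        cases v <;> simp only [Compat] at this
        · obtain ⟨s, h1, rfl⟩ := this
          exact Or.inr ⟨s, h1, rfl⟩
        · exact Or.inl ⟨_, by rw [this.1]⟩
    have hsp : ∀ X' s, Vx.reg ρ X' ∈ S → Vx.val ((ρ.1.1, s), 1) ∈ S → spOf X'.1 = some s := by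
      intro X' s h1 h2
      obtain ⟨s', h3, h4⟩ := hc _ h1 _ h2 (by simp)
      simp only [Prod.mk.injEq, true_and, and_true] at h4
      rwa [h4]
    obtain ⟨θ, y, h1, h2⟩ := region_helly ρ.1.2 ρ.2
      {X' | Vx.reg ρ X' ∈ S ∨ ∃ s, Vx.val ((ρ.1.1, s), 1) ∈ S ∧ X' = (.T (.sp s), [])} (by
        rintro X' (h | ⟨s, h, rfl⟩)
        · exact (hv _ h).2.2.1
        · exact mem_of_spOf hXv.2.2.1 (hsp X s hX h)) (by
        rintro X1 (g1 | ⟨s, h, rfl⟩) X2 (g2 | ⟨s', h', rfl⟩)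
        · by_cases h : X1 = X2
          · subst h; exact (hv _ g1).2.2.2.2
          · exact (hc _ g1 _ g2 (by simpa using h)).2.2
        all_goals simp [noConf, kindLits, tyLits]) (by
        rintro X1 (g1 | ⟨s, h, rfl⟩) X2 (g2 | ⟨s', h', rfl⟩) τ hτ
        · by_cases h : X1 = X2
          · subst h; rw [hτ]; rfl
          · exact (hc _ g1 _ g2 (by simpa using h)).2.1.1 τ hτ
        · cases hτ
          exact adm_sp_iff.2 (hsp _ _ g1 h')
        · have := adm_sp_iff.2 (hsp _ _ g2 h)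
          rw [hτ] at this
          exact this.symm
        · cases hτ
          have := (hsp X s hX h).symm.trans (hsp X s' hX h')
          cases this; rfl)
    refine ⟨.rp ρ θ y, ⟨hXv.1, hXv.2.1, h1⟩, fun v hvS => ?_⟩
    rcases hform v hvS with ⟨X', rfl⟩ | ⟨s, -, rfl⟩
    · exact ⟨rfl, h2 X' (Or.inl hvS)⟩
    · exact ⟨s, (h2 _ (Or.inr ⟨s, hvS, rfl⟩)).1, rfl⟩
  push Not at c1
  by_cases c2 : ∃ N e, Vx.slack N e ∈ S
  · obtain ⟨N, e, h⟩ := c2
    refine ⟨.tri N e, hv _ h, fun v hvS => ?_⟩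
    by_cases h2 : Vx.slack N e = v
    · subst h2; simp [pmem]
    · have := hc _ h _ hvS h2
      cases v <;> simp_all [Compat, pmem]
  push Not at c2
  by_cases c3 : ∃ N e, Vx.lit N e ∈ S
  · obtain ⟨N, e, h⟩ := c3
    have hN : ∀ N' e', Vx.lit N' e' ∈ S → N' = N := by
      intro N' e' h'
      by_cases h2 : Vx.lit N' e' = Vx.lit N e
      · cases h2; rfl
      · exact hc _ h' _ h h2
    by_cases c4 : ∃ e0, Vx.val e0 ∈ S
    · obtain ⟨e0, h0⟩ := c4
      refine ⟨.tri N e, hv _ h, fun v hvS => ?_⟩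
      cases v with
      | val e' => exact hc _ hvS _ h (by simp)
      | lit N' e' =>
        have g1 : e0 = e' := hc _ h0 _ hvS (by simp)
        have g2 : e0 = e := hc _ h0 _ h (by simp)
        exact ⟨hN _ _ hvS, g1.symm.trans g2⟩
      | slack N' e' => exact absurd hvS (c2 _ _)
      | reg ρ X => exact absurd hvS (c1 _ _)
    · push Not at c4
      refine ⟨.rowN N, (hv _ h).1, fun v hvS => ?_⟩
      cases v with
      | val e' => exact absurd hvS (c4 _)
      | lit N' e' => exact hN _ _ hvS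
      | slack N' e' => exact absurd hvS (c2 _ _)
      | reg ρ X => exact absurd hvS (c1 _ _)
  push Not at c3
  by_cases c4 : ∃ e0, Vx.val e0 ∈ S
  · obtain ⟨e0, h0⟩ := c4
    refine ⟨.row e0.1, ⟨(hv _ h0).1, (hv _ h0).2.1⟩, fun v hvS => ?_⟩
    cases v with
    | val e' =>
      by_cases h2 : Vx.val e' = Vx.val e0
      · cases h2; rfl
      · exact hc _ hvS _ h0 h2
    | lit N' e' => exact absurd hvS (c3 _ _)
    | slack N' e' => exact absurd hvS (c2 _ _)
    | reg ρ X => exact absurd hvS (c1 _ _)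
  · push Not at c4
    refine ⟨.row (0, 0), ⟨hJ.zero, by norm_num⟩, fun v hvS => ?_⟩
    cases v with
    | val e' => exact absurd hvS (c4 _)
    | lit N' e' => exact absurd hvS (c3 _ _)
    | slack N' e' => exact absurd hvS (c2 _ _)
    | reg ρ X => exact absurd hvS (c1 _ _)

open Classical in
/-- the event system of an instance -/
noncomputable def Inst.sys (J : Inst) (hJ : J.WF) : EventSystem Vx Pt where
  valid := J.valid
  pt := J.pt
  compat u v := decide (Compat u v)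
  mem := pmem
  compat_of_mem ω u v h _ _ h1 h2 := decide_eq_true (compat_of_pmem J ω u v h h1 h2)
  helly S h1 h2 := helly_vx J hJ S h1 fun u hu v hv h => of_decide_eq_true (h2 u hu v hv h)

theorem maxPt_row (J : Inst) (hJ : J.WF) {w : ℕ × ℕ} (h : J.pt (.row w)) :
    (J.sys hJ).MaxPt (.row w) := by
  refine ⟨h, fun ω' _ hs v _ hm => ?_⟩
  have h0 : pmem ω' (.val (w, 0)) := hs (.val (w, 0)) ⟨h.1, h.2, by norm_num⟩ rfl
  have h1 : pmem ω' (.val (w, 1)) := hs (.val (w, 1)) ⟨h.1, h.2, by norm_num⟩ rfl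
  cases ω' with
  | row w' => have : w = w' := h0
              subst this; exact hm
  | rowN N => exact h0.elim
  | tri N e => have := (show (w, 0) = e from h0).trans (show (w, 1) = e from h1).symm
               simp at this
  | rp ρ θ y => obtain ⟨s, -, h2⟩ := h0
                simp at h2

theorem maxPt_rowN (J : Inst) (hJ : J.WF) {N : List Ent} (h : J.pt (.rowN N)) :
    (J.sys hJ).MaxPt (.rowN N) := by
  refine ⟨h, fun ω' _ hs v _ hm => ?_⟩
  obtain ⟨e, he, e', he', hne⟩ := exists_two_ents hJ.hΦ h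
  have h0 : pmem ω' (.lit N e) := hs (.lit N e) ⟨h, he⟩ rfl
  have h1 : pmem ω' (.lit N e') := hs (.lit N e') ⟨h, he'⟩ rfl
  cases ω' with
  | row w' => exact h0.elim
  | rowN N' => have : N = N' := h0
               subst this; exact hm
  | tri N e => exact absurd (h0.2.trans h1.2.symm) hne
  | rp ρ θ y => exact h0.elim

theorem maxPt_star (J : Inst) (hJ : J.WF) {ρ : Reg} {y : ℕ → Bool} (h : J.pt (.rp ρ none y)) :
    (J.sys hJ).MaxPt (.rp ρ none y) := by
  refine ⟨h, fun ω' hω' hs v hv hm => ?_⟩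
  have key : ∀ s ∈ ρ.2, ∀ x ∈ J.vs, pmem ω' (.reg ρ (.U s, List.replicate 6 (x, y x))) := by
    intro s hs' x hx
    have h3 : SatL y (List.replicate 6 (x, y x)) := by simp [SatL]
    have h4 : SatL y (List.replicate 6 (x, y x) ++ kindLits (.U s)) := by
      simpa [kindLits] using h3
    exact hs (.reg ρ (.U s, List.replicate 6 (x, y x)))
      ⟨h.1, h.2.1, hs', by simpa [Six] using hx, noConf_of_satL h4 h4⟩ ⟨rfl, trivial, h3⟩
  obtain ⟨a, b, c, hI, hab, -⟩ := trips_spec h.2.1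
  have ha : a ∈ ρ.2 := by simp [hI]
  have hb : b ∈ ρ.2 := by simp [hI]
  have k0 := key a ha 0 hJ.zero
  cases ω' with
  | row w' => exact k0.elim
  | rowN N' => exact k0.elim
  | tri N e => exact k0.elim
  | rp ρ' θ y' =>
    obtain rfl : ρ = ρ' := k0.1
    have hy : ∀ x ∈ J.vs, y' x = y x := fun x hx => by
      simpa [SatL] using (key a ha x hx).2.2
    obtain rfl : θ = none := by
      rcases θ with _ | s | c
      · rfl
      · have g1 : a = s := k0.2.1
        have g2 : b = s := (key b hb 0 hJ.zero).2.1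
        exact absurd (g1.trans g2.symm) hab
      · have g1 : c ∈ ρ.1.2 := hω'.2.2.1
        obtain ⟨l, hl, hl2⟩ := h.2.2 c g1
        exact absurd ⟨l, hl, (hy _ (((hJ.hreg _ h.1).2 c g1).2 l hl)).trans hl2⟩
          (satL_negC.1 hω'.2.2.2)
    cases v with
    | val e => obtain ⟨s, h5, -⟩ := hm
               cases h5
    | lit N e => exact hm.elim
    | slack N e => exact hm.elim
    | reg ρ'' X =>
      exact ⟨hm.1, hm.2.1, (satL_congr fun x hx => hy x (hv.2.2.2.1.2 x hx)).1 hm.2.2⟩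

theorem yes_of_cover (J : Inst) (hJ : J.WF) (C : Set Vx) (hv : ∀ a ∈ C, J.valid a)
    (hd : ∀ a ∈ C, ∀ b ∈ C, ∀ ω, J.pt ω → pmem ω a → pmem ω b → a = b)
    (hc : ∀ ω, (J.sys hJ).MaxPt ω → ∃ a ∈ C, pmem ω a) : J.Yes := by
  have h1 : ∀ w : ℕ × ℕ, ∃ a, w.1 ∈ J.vs → w.2 < 7 → a < 3 ∧ Vx.val (w, a) ∈ C := by
    intro w
    by_cases h : w.1 ∈ J.vs ∧ w.2 < 7
    · obtain ⟨a, ha, hm⟩ := hc _ (maxPt_row J hJ (w := w) h)
      cases a with
      | val e =>
        obtain rfl : e.1 = w := hm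
        exact ⟨e.2, fun _ _ => ⟨(hv _ ha).2.2, ha⟩⟩
      | lit N e => exact hm.elim
      | slack N e => exact hm.elim
      | reg ρ X => exact hm.elim
    · exact ⟨0, fun g1 g2 => absurd ⟨g1, g2⟩ h⟩
  choose σ hσ using h1
  obtain ⟨ν, hν, htr⟩ := satisfies_of_csp hJ.hΦ σ (fun x hx s hs => (hσ (x, s) hx hs).1) (by
    intro N hN
    obtain ⟨a, ha, hm⟩ := hc _ (maxPt_rowN J hJ hN)
    cases a with
    | val e => exact hm.elim
    | lit N' e =>
      obtain rfl : N' = N := hm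
      have he := (hv _ ha).2
      refine ⟨e, he, fun h => ?_⟩
      obtain ⟨g1, g2, -⟩ := ent_valid hJ.hΦ hN he
      have g3 := (hσ e.1 g1 g2).2
      rw [h] at g3
      have := hd _ g3 _ ha (.tri N' e) ⟨hN, he⟩ rfl ⟨rfl, rfl⟩
      cases this
    | slack N e => exact hm.elim
    | reg ρ X => exact hm.elim)
  refine ⟨ν, hν, fun r hr ht => ?_⟩
  rintro ⟨y, hy⟩
  obtain ⟨I, hI, hall⟩ := htr _ ht
  obtain ⟨a, ha, hm⟩ := hc _ (maxPt_star J hJ (ρ := (r, I)) (y := y) ⟨hr, hI, hy⟩)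
  cases a with
  | val e => obtain ⟨s, h5, -⟩ := hm
             cases h5
  | lit N e => exact hm.elim
  | slack N e => exact hm.elim
  | reg ρ X =>
    obtain ⟨rfl, h2, h3⟩ := hm
    obtain ⟨s | τ, L⟩ := X
    · have hs : s ∈ I := (hv _ ha).2.2.1
      have g3 := (hσ (r.1, s) (hJ.hreg r hr).1 (lt_of_mem_trips hI hs)).2
      rw [hall s hs] at g3
      have := hd _ g3 _ ha (.rp (r, I) (some (.sp s)) y)
        ⟨hr, hI, hs, by simp [SatL, tyLits]⟩ ⟨s, rfl, rfl⟩ ⟨rfl, rfl, h3⟩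
      cases this
    · cases h2

end Pool.Agent.MP_38a5c8_lc.H27
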