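import Pool.Agent.MP_38a5c8_lc.H27.Gadget

set_option autoImplicit false

namespace Pool.Agent.MP_38a5c8_lc.H27

open Pool.Agent.Shared.H27

/-- the copy of a variable on which a vertex puts a condition -/
def tgt : Vx → ℕ × ℕ
  | .val e => e.1
  | .lit _ e => e.1
  | .slack _ e => e.1
  | .reg ρ X => (ρ.1.1, (spOf X.1).getD 0)

/-- the condition -/
def okv : Vx → ℕ → Prop
  | .val e, a => a = e.2
  | .lit _ e, a => a ≠ e.2
  | .slack _ e, a => a ≠ e.2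
  | .reg _ X, a => spOf X.1 ≠ none → a ≠ 1

theorem exists_satL_of_valid {ψ : CNF} {I vs : List ℕ} {X : Kind × List Lit}
    (h : RValid ψ I vs X) : ∃ y, SatL y X.2 := by
  obtain ⟨y, hy⟩ := exists_satL {X.2 ++ kindLits X.1} (by
    rintro _ rfl _ rfl; exact h.2.2)
  exact ⟨y, (satL_append.1 (hy _ rfl)).1⟩

theorem okv_val (J : Inst) {e : Ent} {v : Vx} (hv : J.valid v)
    (hd : ∀ ω, J.pt ω → pmem ω (.val e) → ¬ pmem ω v) (he : J.valid (.val e))
    (ht : e.1 = tgt v) : okv v e.2 := by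
  cases v with
  | val e' => exact absurd (show e'.1 = e.1 from ht.symm) (hd (.row e.1) ⟨he.1, he.2.1⟩ rfl)
  | lit N e' =>
    intro h
    exact hd (.tri N e') hv (Prod.ext ht h) ⟨rfl, rfl⟩
  | slack N e' =>
    intro h
    exact hd (.tri N e') hv (Prod.ext ht h) ⟨rfl, rfl⟩
  | reg ρ X =>
    intro h1 h
    obtain ⟨s, hs⟩ := Option.ne_none_iff_exists'.1 h1
    obtain ⟨y, hy⟩ := exists_satL_of_valid hv.2.2
    refine hd (.rp ρ (some (.sp s)) y)
      ⟨hv.1, hv.2.1, mem_of_spOf hv.2.2.1 hs, by simp [SatL, tyLits]⟩ ⟨s, rfl, ?_⟩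
      ⟨rfl, adm_sp_iff.2 hs, hy⟩
    refine Prod.ext ?_ h
    rw [ht]
    simp [tgt, hs]

theorem okv_form (J : Inst) {v : Vx} (hv : J.valid v) :
    (∃ e, v = .val e) ∨ ∃ b, ∀ a, a ≠ b → okv v a := by
  cases v with
  | val e => exact Or.inl ⟨e, rfl⟩
  | lit N e => exact Or.inr ⟨e.2, fun a h => h⟩
  | slack N e => exact Or.inr ⟨e.2, fun a h => h⟩
  | reg ρ X => exact Or.inr ⟨1, fun a h _ => h⟩

theorem exists_sigma (J : Inst) {u v : Vx} (hu : J.valid u) (hv : J.valid v)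
    (hd : ∀ ω, J.pt ω → pmem ω u → ¬ pmem ω v) (σ0 : ℕ × ℕ → ℕ) (h0 : ∀ w, σ0 w < 3) :
    ∃ σ : ℕ × ℕ → ℕ, (∀ w, σ w < 3) ∧ okv u (σ (tgt u)) ∧ okv v (σ (tgt v)) ∧
      ∀ w, w ≠ tgt u → w ≠ tgt v → σ w = σ0 w := by
  have one : ∀ z, J.valid z → ∃ a < 3, okv z a := by
    intro z hz
    rcases okv_form J hz with ⟨e, rfl⟩ | ⟨b, hb⟩
    · exact ⟨e.2, hz.2.2, rfl⟩
    · obtain ⟨a, h1, h2⟩ : ∃ a < 3, a ≠ b := by
        by_cases h : b = 0
        · exact ⟨1, by omega, by omega⟩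
        · exact ⟨0, by omega, by omega⟩
      exact ⟨a, h1, hb a h2⟩
  by_cases ht : tgt u = tgt v
  · obtain ⟨a, h1, h2, h3⟩ : ∃ a < 3, okv u a ∧ okv v a := by
      rcases okv_form J hu with ⟨e, rfl⟩ | ⟨b, hb⟩
      · exact ⟨e.2, hu.2.2, rfl, okv_val J hv hd hu ht⟩
      · rcases okv_form J hv with ⟨e, rfl⟩ | ⟨b', hb'⟩
        · exact ⟨e.2, hv.2.2, okv_val J hu (fun ω h g1 g2 => hd ω h g2 g1) hv ht.symm, rfl⟩
        · obtain ⟨a, h1, h2, h3⟩ : ∃ a < 3, a ≠ b ∧ a ≠ b' := by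
            by_cases g0 : b ≠ 0 ∧ b' ≠ 0
            · exact ⟨0, by omega, by omega⟩
            · by_cases g1 : b ≠ 1 ∧ b' ≠ 1
              · exact ⟨1, by omega, by omega⟩
              · exact ⟨2, by omega, by omega⟩
          exact ⟨a, h1, hb a h2, hb' a h3⟩
    refine ⟨Function.update σ0 (tgt u) a, fun w => ?_, by simpa using h2, by simpa [← ht] using h3,
      fun w hw _ => Function.update_of_ne hw _ _⟩
    by_cases hw : w = tgt u
    · subst hw; simpa using h1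
    · rw [Function.update_of_ne hw]; exact h0 w
  · obtain ⟨a, h1, h2⟩ := one u hu
    obtain ⟨b, h3, h4⟩ := one v hv
    refine ⟨Function.update (Function.update σ0 (tgt u) a) (tgt v) b, fun w => ?_,
      by rw [Function.update_of_ne ht]; simpa using h2, by simpa using h4,
      fun w hw hw' => by rw [Function.update_of_ne hw', Function.update_of_ne hw]⟩
    by_cases hw' : w = tgt v
    · subst hw'; simpa using h3
    · rw [Function.update_of_ne hw']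
      by_cases hw : w = tgt u
      · subst hw; simpa using h1
      · rw [Function.update_of_ne hw]; exact h0 w

/-- a padding event -/
def pad (s : ℕ) : Kind × List Lit := (.T (.sp s), List.replicate 6 (0, true))

theorem pad_valid {ψ : CNF} {I vs : List ℕ} (h0 : 0 ∈ vs) {s : ℕ} (hs : s ∈ I) :
    RValid ψ I vs (pad s) :=
  ⟨hs, by simpa [Six, pad] using h0, by simp [pad, kindLits, tyLits, noConf]⟩

theorem exists_pad {ψ : CNF} {I vs : List ℕ} (h0 : 0 ∈ vs) (hI : I ∈ trips) (c0 : ℕ)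
    (X : Kind × List Lit) : ∃ X', RValid ψ I vs X' ∧ X'.1 ≠ .T (.sp c0) ∧ (∀ s, X'.1 ≠ .U s) ∧
      ∀ θ y, RMem θ y X → ¬ RMem θ y X' := by
  obtain ⟨s, hs, h1, h2⟩ := exists_avoid hI c0 ((spOf X.1).getD 0)
  refine ⟨pad s, pad_valid h0 hs, by simpa [pad] using h1, by simp [pad], fun θ y g1 g2 => ?_⟩
  obtain rfl : θ = some (.sp s) := g2.1
  rw [adm_sp_iff.1 g1.1] at h2
  exact h2 rfl

theorem exists_region_sel (J : Inst) (hJ : J.WF) {u v : Vx} (hu : J.valid u) (hv : J.valid v)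
    (hd : ∀ ω, J.pt ω → pmem ω u → ¬ pmem ω v) (ρ : Reg) (h1 : ρ.1 ∈ J.regs) (h2 : ρ.2 ∈ trips)
    (star : Prop) (hstar : ¬ star → ¬ Sat ρ.1.2) :
    ∃ e, RSel ρ.1.2 ρ.2 J.vs e ∧ (∀ X, u = .reg ρ X ∨ v = .reg ρ X → Incl ρ.1.2 ρ.2 e X) ∧
      ∀ θ y s L, RPt ρ.1.2 ρ.2 θ y → e θ y = (.U s, L) →
        u = .reg ρ (.U s, L) ∨ v = .reg ρ (.U s, L) ∨
          (star ∧ s ≠ (tgt u).2 ∧ s ≠ (tgt v).2) := by
  obtain ⟨c0, hc0, n1, n2⟩ := exists_avoid h2 (tgt u).2 (tgt v).2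
  have hne : ∀ z X, z = Vx.reg ρ X → c0 ≠ (tgt z).2 → X.1 ≠ .T (.sp c0) := by
    rintro _ X rfl h g
    exact h (by simp [tgt, g, spOf])
  obtain ⟨X1, X2, v1, v2, d, m1, m2, r1, r2, q1, q2⟩ : ∃ X1 X2, RValid ρ.1.2 ρ.2 J.vs X1 ∧
      RValid ρ.1.2 ρ.2 J.vs X2 ∧ (∀ θ y, RPt ρ.1.2 ρ.2 θ y → RMem θ y X1 → ¬ RMem θ y X2) ∧
      X1.1 ≠ .T (.sp c0) ∧ X2.1 ≠ .T (.sp c0) ∧ (∀ X, u = .reg ρ X → X = X1) ∧
      (∀ X, v = .reg ρ X → X = X2) ∧ (∀ s, X1.1 = .U s → u = .reg ρ X1) ∧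
      (∀ s, X2.1 = .U s → v = .reg ρ X2) := by
    by_cases cu : ∃ X, u = .reg ρ X
    · obtain ⟨X1, rfl⟩ := cu
      by_cases cv : ∃ X, v = .reg ρ X
      · obtain ⟨X2, rfl⟩ := cv
        exact ⟨X1, X2, hu.2.2, hv.2.2, fun θ y hp g1 g2 =>
          hd (.rp ρ θ y) ⟨h1, h2, hp⟩ ⟨rfl, g1⟩ ⟨rfl, g2⟩, hne _ _ rfl n1, hne _ _ rfl n2,
          fun X h => by cases h; rfl, fun X h => by cases h; rfl, fun _ _ => rfl, fun _ _ => rfl⟩
      · obtain ⟨X2, g1, g2, g3, g4⟩ := exists_pad (ψ := ρ.1.2) hJ.zero h2 c0 X1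
        exact ⟨X1, X2, hu.2.2, g1, fun θ y _ => g4 θ y, hne _ _ rfl n1, g2,
          fun X h => by cases h; rfl, fun X h => absurd ⟨X, h⟩ cv, fun _ _ => rfl,
          fun s h => absurd h (g3 s)⟩
    · by_cases cv : ∃ X, v = .reg ρ X
      · obtain ⟨X2, rfl⟩ := cv
        obtain ⟨X1, g1, g2, g3, g4⟩ := exists_pad (ψ := ρ.1.2) hJ.zero h2 c0 X2
        exact ⟨X1, X2, g1, hv.2.2, fun θ y _ a b => g4 θ y b a, g2, hne _ _ rfl n2,
          fun X h => absurd ⟨X, h⟩ cu, fun X h => by cases h; rfl, fun s h => absurd h (g3 s),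
          fun _ _ => rfl⟩
      · obtain ⟨X1, k1, k2, k3, -⟩ := exists_pad (ψ := ρ.1.2) hJ.zero h2 c0 (pad 0)
        obtain ⟨X2, g1, g2, g3, g4⟩ := exists_pad (ψ := ρ.1.2) hJ.zero h2 c0 X1
        exact ⟨X1, X2, k1, g1, fun θ y _ => g4 θ y, k2, g2, fun X h => absurd ⟨X, h⟩ cu,
          fun X h => absurd ⟨X, h⟩ cv, fun s h => absurd h (k3 s), fun s h => absurd h (g3 s)⟩
  obtain ⟨e, e1, e2, e3, e4⟩ := exists_goodSel (hJ.hreg _ h1).2 hJ.zero hstar hc0 v1 v2 d m1 m2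
  refine ⟨e, e1, ?_, fun θ y s L hp h => ?_⟩
  · rintro X (h | h)
    · rw [r1 X h]; exact e2
    · rw [r2 X h]; exact e3
  · rcases e4 θ y s L hp h with g | g | ⟨g, rfl⟩
    · exact Or.inl (g ▸ q1 s (by rw [← g]))
    · exact Or.inr (Or.inl (g ▸ q2 s (by rw [← g])))
    · exact Or.inr (Or.inr ⟨g, n1, n2⟩)

theorem exists_choice (J : Inst) (hJ : J.WF) {u v : Vx} (hu : J.valid u) (hv : J.valid v)
    (hd : ∀ ω, J.pt ω → pmem ω u → ¬ pmem ω v) {ν : ℕ → Bool} (hν : Satisfies ν J.Φ)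
    {σ : ℕ × ℕ → ℕ} (o1 : okv u (σ (tgt u))) (o2 : okv v (σ (tgt v)))
    (hσ : ∀ w, w ≠ tgt u → w ≠ tgt v → σ w = bval (ν w.1)) (N : List Ent) :
    ∃ e, N ∈ ngs J.Φ J.vs → e ∈ N ∧ σ e.1 ≠ e.2 ∧
      (∀ e', u = .lit N e' ∨ v = .lit N e' → e = e') ∧
      ∀ e', u = .slack N e' ∨ v = .slack N e' → e ≠ e' := by
  by_cases hN : N ∈ ngs J.Φ J.vs
  swap
  · exact ⟨((0, 0), 0), fun h => absurd h hN⟩
  by_cases c1 : ∃ e, u = .lit N e
  · obtain ⟨e, rfl⟩ := c1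
    refine ⟨e, fun _ => ⟨hu.2, o1, ?_, ?_⟩⟩
    · rintro e' (h | rfl)
      · cases h; rfl
      · exact absurd (show pmem (.rowN N) (.lit N e') from rfl) (hd (.rowN N) hN rfl)
    · rintro e' (h | rfl) h2
      · cases h
      · exact hd (.tri N e) hu ⟨rfl, rfl⟩ ⟨rfl, h2.symm⟩
  by_cases c2 : ∃ e, v = .lit N e
  · obtain ⟨e, rfl⟩ := c2
    refine ⟨e, fun _ => ⟨hv.2, o2, ?_, ?_⟩⟩
    · rintro e' (h | h)
      · exact absurd ⟨_, h⟩ c1
      · cases h; rfl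
    · rintro e' (rfl | h) h2
      · exact hd (.tri N e) hv ⟨rfl, h2.symm⟩ ⟨rfl, rfl⟩
      · cases h
  obtain ⟨e, he, g1, g2, g3⟩ := exists_ent_avoid hJ.hΦ hν hN (tgt u) (tgt v)
  refine ⟨e, fun _ => ⟨he, by rw [hσ _ g1 g2]; exact g3, ?_, ?_⟩⟩
  · rintro e' (h | h)
    · exact absurd ⟨_, h⟩ c1
    · exact absurd ⟨_, h⟩ c2
  · rintro e' (rfl | rfl) rfl
    · exact g1 rfl
    · exact g2 rfl

theorem exists_selector (J : Inst) (hJ : J.WF) (hY : J.Yes) (u v : Vx) (hu : J.valid u)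
    (hv : J.valid v) (hd : ∀ ω, J.pt ω → pmem ω u → ¬ pmem ω v) :
    ∃ e, (J.sys hJ).IsSelector e ∧ (∀ ω, J.pt ω → pmem ω u → e ω = u) ∧
      (∀ ω, J.pt ω → pmem ω v → e ω = v) := by
  classical
  obtain ⟨ν, hν, hreg⟩ := hY
  obtain ⟨σ, s3, o1, o2, hσ⟩ := exists_sigma J hu hv hd (fun w => bval (ν w.1))
    (fun w => by unfold bval; split_ifs <;> norm_num)
  choose ch hch using exists_choice J hJ hu hv hd hν o1 o2 hσ
  have hex : ∀ ρ : Reg, ∃ e : Option Ty → (ℕ → Bool) → Kind × List Lit,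
      ρ.1 ∈ J.regs → ρ.2 ∈ trips → RSel ρ.1.2 ρ.2 J.vs e ∧
      (∀ X, u = .reg ρ X ∨ v = .reg ρ X → Incl ρ.1.2 ρ.2 e X) ∧
      ∀ θ y s L, RPt ρ.1.2 ρ.2 θ y → e θ y = (.U s, L) →
        u = .reg ρ (.U s, L) ∨ v = .reg ρ (.U s, L) ∨
          (ν ρ.1.1 = false ∧ s ≠ (tgt u).2 ∧ s ≠ (tgt v).2) := by
    intro ρ
    by_cases h : ρ.1 ∈ J.regs ∧ ρ.2 ∈ trips
    · obtain ⟨e, he⟩ := exists_region_sel J hJ hu hv hd ρ h.1 h.2 (ν ρ.1.1 = false)
        (fun g => hreg _ h.1 (by simpa using g))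
      exact ⟨e, fun _ _ => he⟩
    · exact ⟨fun _ _ => pad 0, fun g1 g2 => absurd ⟨g1, g2⟩ h⟩
  choose er her using hex
  have her1 := fun ρ h1 h2 => (her ρ h1 h2).1
  have her2 := fun ρ h1 h2 => (her ρ h1 h2).2.1
  have her3 := fun ρ h1 h2 => (her ρ h1 h2).2.2
  let e : Pt → Vx := fun ω => match ω with
    | .row w => .val (w, σ w)
    | .rowN N => .lit N (ch N)
    | .tri N e => if σ e.1 = e.2 then .val e else if ch N = e then .lit N e else .slack N e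
    | .rp ρ θ y => if ∃ s, θ = some (.sp s) ∧ σ (ρ.1.1, s) = 1
        then .val ((ρ.1.1, (spOf (.T (θ.getD (.sp 0)))).getD 0), 1) else .reg ρ (er ρ θ y)
  let Chosen : Vx → Prop := fun a => match a with
    | .val e => σ e.1 = e.2
    | .lit N e => ch N = e
    | .slack N e => σ e.1 ≠ e.2 ∧ ch N ≠ e
    | .reg ρ X => Incl ρ.1.2 ρ.2 (er ρ) X ∧ ∀ s, spOf X.1 = some s → σ (ρ.1.1, s) ≠ 1
  have hrp1 : ∀ (ρ : Reg) s y, σ (ρ.1.1, s) = 1 →
      e (.rp ρ (some (.sp s)) y) = .val ((ρ.1.1, s), 1) := by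
    intro ρ s y h
    have h2 : ∃ s', some (Ty.sp s) = some (.sp s') ∧ σ (ρ.1.1, s') = 1 := ⟨s, rfl, h⟩
    simp only [e]
    rw [if_pos h2]
    rfl
  have hrp2 : ∀ (ρ : Reg) θ y, (¬ ∃ s, θ = some (.sp s) ∧ σ (ρ.1.1, s) = 1) →
      e (.rp ρ θ y) = .reg ρ (er ρ θ y) := by
    intro ρ θ y h
    simp only [e]
    rw [if_neg h]
  have hokreg : ∀ z ρ X, z = Vx.reg ρ X → okv z (σ (tgt z)) →
      ∀ s, spOf X.1 = some s → σ (ρ.1.1, s) ≠ 1 := by
    rintro _ ρ X rfl h s hs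
    have := h (by simp [hs])
    simpa [tgt, hs] using this
  have A : ∀ a, J.valid a → Chosen a → ∀ ω, J.pt ω → pmem ω a → e ω = a := by
    intro a ha hc ω hω hm
    cases a with
    | val e0 =>
      have hc' : σ e0.1 = e0.2 := hc
      cases ω with
      | row w => obtain rfl : e0.1 = w := hm
                 simp only [e, hc']
      | rowN N => exact hm.elim
      | tri N e1 => obtain rfl : e0 = e1 := hm
                    simp only [e, hc', if_true]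
      | rp ρ θ y => obtain ⟨s, rfl, rfl⟩ := hm
                    exact hrp1 ρ s y hc'
    | lit N e0 =>
      have hc' : ch N = e0 := hc
      cases ω with
      | row w => exact hm.elim
      | rowN N' => obtain rfl : N = N' := hm
                   simp only [e, hc']
      | tri N' e1 =>
        obtain ⟨rfl, rfl⟩ := hm
        have := (hch N ha.1).2.1
        rw [hc'] at this
        simp only [e, this, hc', if_true, if_false]
      | rp ρ θ y => exact hm.elim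
    | slack N e0 =>
      cases ω with
      | row w => exact hm.elim
      | rowN N' => exact hm.elim
      | tri N' e1 =>
        obtain ⟨rfl, rfl⟩ := hm
        simp only [e, hc.1, hc.2, if_false]
      | rp ρ θ y => exact hm.elim
    | reg ρ X =>
      cases ω with
      | row w => exact hm.elim
      | rowN N' => exact hm.elim
      | tri N' e1 => exact hm.elim
      | rp ρ' θ y =>
        obtain ⟨rfl, h2⟩ := hm
        rw [hrp2, hc.1 θ y hω.2.2 h2]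
        rintro ⟨s, rfl, h3⟩
        exact hc.2 s (adm_sp_iff.1 h2.1) h3
  have B : ∀ ω, J.pt ω → J.valid (e ω) ∧ pmem ω (e ω) ∧ Chosen (e ω) := by
    intro ω hω
    cases ω with
    | row w => exact ⟨⟨hω.1, hω.2, s3 w⟩, rfl, rfl⟩
    | rowN N => exact ⟨⟨hω, (hch N hω).1⟩, rfl, rfl⟩
    | tri N e1 =>
      simp only [e]
      split_ifs with c1 c2
      · exact ⟨ent_valid hJ.hΦ hω.1 hω.2, rfl, c1⟩
      · exact ⟨hω, ⟨rfl, rfl⟩, c2⟩
      · exact ⟨hω, ⟨rfl, rfl⟩, c1, c2⟩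
    | rp ρ θ y =>
      by_cases c : ∃ s, θ = some (.sp s) ∧ σ (ρ.1.1, s) = 1
      · obtain ⟨s, rfl, h⟩ := c
        rw [hrp1 ρ s y h]
        exact ⟨⟨(hJ.hreg _ hω.1).1, lt_of_mem_trips hω.2.1 hω.2.2.1, by norm_num⟩, ⟨s, rfl, rfl⟩, h⟩
      · rw [hrp2 ρ θ y c]
        have hs := her1 ρ hω.1 hω.2.1
        have hm := hs.mem θ y hω.2.2
        refine ⟨⟨hω.1, hω.2.1, hs.valid θ y hω.2.2⟩, ⟨rfl, hm⟩,
          fun θ' y' hp hm' => hs.const θ y θ' y' hω.2.2 hp hm', fun s hs1 h1 => ?_⟩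
        rcases hX : er ρ θ y with ⟨s' | s' | c', L⟩
        · rw [hX] at hs1
          obtain rfl : s' = s := by simpa [spOf] using hs1
          rcases her3 ρ hω.1 hω.2.1 θ y s' L hω.2.2 hX with g | g | ⟨g1, g2, g3⟩
          · exact hokreg u ρ _ g o1 s' rfl h1
          · exact hokreg v ρ _ g o2 s' rfl h1
          · rw [hσ _ (fun h => g2 (by rw [← h])) (fun h => g3 (by rw [← h]))] at h1
            simp [g1, bval] at h1
        · rw [hX] at hs1 hm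
          obtain rfl : s' = s := by simpa [spOf] using hs1
          exact c ⟨s', hm.1, h1⟩
        · rw [hX] at hs1
          simp [spOf] at hs1
  have C : ∀ z, J.valid z → (z = u ∨ z = v) → okv z (σ (tgt z)) → Chosen z := by
    intro z hz huv ho
    cases z with
    | val e0 => exact ho
    | lit N e0 => exact (hch N hz.1).2.2.1 e0 (huv.imp Eq.symm Eq.symm)
    | slack N e0 => exact ⟨ho, (hch N hz.1).2.2.2 e0 (huv.imp Eq.symm Eq.symm)⟩
    | reg ρ X =>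
      exact ⟨her2 ρ hz.1 hz.2.1 X (huv.imp Eq.symm Eq.symm), hokreg _ ρ X rfl ho⟩
  exact ⟨e, ⟨fun ω h => (B ω h).1, fun ω h => (B ω h).2.1,
    fun ω ω' h h' hm => A _ (B ω h).1 (B ω h).2.2 ω' h' hm⟩,
    A u hu (C u hu (Or.inl rfl) o1), A v hv (C v hv (Or.inr rfl) o2)⟩

/-- correctness of the gadget -/
theorem edgeStrong_iff_yes (J : Inst) (hJ : J.WF) (l : List Vx) (hl : ∀ v, v ∈ l ↔ J.valid v) :
    EdgeStrong (graphOf (matrixOf (J.sys hJ).compat l)) ↔ J.Yes := by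
  obtain ⟨lab, h1, h2, h3⟩ := (J.sys hJ).exists_lab l hl
  constructor
  · intro h
    obtain ⟨C, c1, c2, c3⟩ := (J.sys hJ).cover_of_edgeStrong _ lab h1 h2 h3 h
      (.val ((0, 0), 0)) (.val ((0, 1), 0)) ⟨hJ.zero, by norm_num, by norm_num⟩
      ⟨hJ.zero, by norm_num, by norm_num⟩ (by
        intro ω _ g1 g2
        have g1' : pmem ω (.val ((0, 0), 0)) := g1
        have g2' : pmem ω (.val ((0, 1), 0)) := g2
        cases ω with
        | row w => have := (show (0, 0) = w from g1').trans (show (0, 1) = w from g2').symm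
                   simp at this
        | rowN N => exact g1'.elim
        | tri N e =>
          have := (show ((0, 0), 0) = e from g1').trans (show ((0, 1), 0) = e from g2').symm
          simp at this
        | rp ρ θ y => obtain ⟨s, -, h⟩ := g1'
                      simp at h)
    exact yes_of_cover J hJ C c1 c2 c3
  · intro h
    exact (J.sys hJ).edgeStrong_of_selectors _ lab h1 h2 h3 (exists_selector J hJ h)

end Pool.Agent.MP_38a5c8_lc.H27
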