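import Pool.Agent.MP_38a5c8_lc.H27.Code

set_option autoImplicit false

namespace Pool.Agent.MP_38a5c8_lc.H27

open Pool.Agent.Shared.H27 Pool.Agent.Shared.H56 N68a2faeb

/-- choose an index and satisfy the first formula of that pair -/
def bigCNF (ps : List (CNF × CNF)) : CNF :=
  [(List.range ps.length).map fun d => (Nat.pair 0 d, true)] ++
    (List.range ps.length).flatMap fun d => (ps.getD d ([], [])).1.map fun c =>
      (Nat.pair 0 d, false) :: c.map fun l => (Nat.pair 1 l.1, l.2)

def regsOf (ps : List (CNF × CNF)) : List (ℕ × CNF) :=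
  (List.range ps.length).map fun d => (2 * Nat.pair 0 d, (ps.getD d ([], [])).2)

def varsOf (φ : CNF) : List ℕ := φ.flatMap fun c => c.map fun l => l.1

def vsOf (ps : List (CNF × CNF)) : List ℕ :=
  0 :: (varsOf (to3 (bigCNF ps)) ++ (regsOf ps).flatMap fun r => r.1 :: varsOf r.2)

def instOf (ps : List (CNF × CNF)) : Inst := ⟨to3 (bigCNF ps), regsOf ps, vsOf ps⟩

theorem instOf_wf (ps : List (CNF × CNF)) (h : ∀ p ∈ ps, ∀ c ∈ p.2, c.length = 3) :
    (instOf ps).WF := by
  have hv : ∀ (φ : CNF), ∀ c ∈ φ, ∀ l ∈ c, l.1 ∈ varsOf φ := fun φ c hc l hl =>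
    List.mem_flatMap.2 ⟨c, hc, List.mem_map.2 ⟨l, hl, rfl⟩⟩
  refine ⟨List.mem_cons_self, fun c hc => ⟨length_of_mem_to3 hc, fun l hl => ?_⟩,
    fun r hr => ⟨?_, fun c hc => ⟨?_, fun l hl => ?_⟩⟩⟩
  · exact List.mem_cons_of_mem _ (List.mem_append_left _ (hv _ c hc l hl))
  · exact List.mem_cons_of_mem _ (List.mem_append_right _
      (List.mem_flatMap.2 ⟨r, hr, List.mem_cons_self⟩))
  · obtain ⟨d, hd, rfl⟩ := List.mem_map.1 hr
    have hd' := List.mem_range.1 hd
    refine h _ ?_ c hc
    rw [List.getD_eq_getElem _ _ hd']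
    exact List.getElem_mem hd'
  · exact List.mem_cons_of_mem _ (List.mem_append_right _
      (List.mem_flatMap.2 ⟨r, hr, List.mem_cons_of_mem _ (hv _ c hc l hl)⟩))

theorem instOf_yes (ps : List (CNF × CNF)) :
    (instOf ps).Yes ↔ ∃ p ∈ ps, Sat p.1 ∧ ¬ Sat p.2 := by
  constructor
  · rintro ⟨ν, h1, h2⟩
    have h3 := satisfies_of_to3 h1
    simp only [bigCNF, satisfies_append] at h3
    obtain ⟨l, hl, hl2⟩ := h3.1 _ (List.mem_singleton_self _)
    obtain ⟨d, hd, rfl⟩ := List.mem_map.1 hl
    have hd' := List.mem_range.1 hd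
    refine ⟨ps.getD d ([], []), by rw [List.getD_eq_getElem _ _ hd']; exact List.getElem_mem hd',
      ⟨fun v => ν (2 * Nat.pair 1 v), fun c hc => ?_⟩,
      h2 _ (List.mem_map.2 ⟨d, hd, rfl⟩) hl2⟩
    obtain ⟨l, hl3, hl4⟩ := h3.2 _ (List.mem_flatMap.2 ⟨d, hd, List.mem_map.2 ⟨c, hc, rfl⟩⟩)
    rcases List.mem_cons.1 hl3 with rfl | hl3
    · rw [hl2] at hl4
      cases hl4
    · obtain ⟨l', hl', rfl⟩ := List.mem_map.1 hl3
      exact ⟨l', hl', hl4⟩
  · rintro ⟨p, hp, ⟨ν, hν⟩, h2⟩
    obtain ⟨d, hd, rfl⟩ := List.getElem_of_mem hp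
    let ν' : ℕ → Bool := fun v =>
      if v.unpair.1 = 0 then decide (v.unpair.2 = d) else ν v.unpair.2
    have h3 : Satisfies ν' (bigCNF ps) := by
      simp only [bigCNF, satisfies_append]
      constructor
      · intro c hc
        rw [List.mem_singleton] at hc
        subst hc
        exact ⟨_, List.mem_map.2 ⟨d, List.mem_range.2 hd, rfl⟩, by simp [ν']⟩
      · intro c hc
        obtain ⟨d', hd', hc⟩ := List.mem_flatMap.1 hc
        obtain ⟨c', hc', rfl⟩ := List.mem_map.1 hc
        by_cases h : d' = d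
        · subst h
          rw [List.getD_eq_getElem _ _ hd] at hc'
          obtain ⟨l, hl, hl2⟩ := hν c' hc'
          exact ⟨_, List.mem_cons_of_mem _ (List.mem_map.2 ⟨l, hl, rfl⟩), by simpa [ν'] using hl2⟩
        · exact ⟨_, List.mem_cons_self, by simp [ν', h]⟩
    obtain ⟨μ, h4, h5⟩ := exists_satisfies_to3 h3
    refine ⟨μ, h4, fun r hr ht => ?_⟩
    obtain ⟨d', hd', rfl⟩ := List.mem_map.1 hr
    rw [h5] at ht
    have : d' = d := by simpa [ν'] using ht
    subst this
    rwa [List.getD_eq_getElem _ _ hd]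

theorem pt_instOf {α : Type} [N487b59b3 α] {ps : α → List (CNF × CNF)} (h : PT ps) :
    PT fun a => gadget (instOf (ps a)).Φ (instOf (ps a)).regs (instOf (ps a)).vs := by
  have h1 : PT fun a => to3 (bigCNF (ps a)) := by
    apply pt_to3; unfold bigCNF; fun_prop
  have h2 : PT fun a => regsOf (ps a) := by unfold regsOf; fun_prop
  refine pt_gadget h1 h2 ?_
  obtain ⟨T1, g1, e1⟩ : ∃ T : α → CNF, PT T ∧ ∀ a, to3 (bigCNF (ps a)) = T a :=
    ⟨_, h1, fun _ => rfl⟩
  obtain ⟨T2, g2, e2⟩ : ∃ T : α → List (ℕ × CNF), PT T ∧ ∀ a, regsOf (ps a) = T a :=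
    ⟨_, h2, fun _ => rfl⟩
  simp only [instOf, vsOf, varsOf, e1, e2]
  fun_prop

theorem count_le_of_forall₂ {β a : List Bool}
    (h : List.Forall₂ (fun x y => x = true → y = true) β a) :
    β.count true ≤ a.count true ∧ (a.count true ≤ β.count true → β = a) := by
  induction h with
  | nil => simp
  | @cons x y β a h _ ih =>
    cases x <;> cases y <;> simp at h ⊢
    · exact ih
    · omega
    · exact ih

/-- hardness -/
theorem parallelNP_hard (L : DecisionProblem) (hL : L ∈ ParallelNP) :
    N793a5b8e.ManyOneReducible L edgeStrongLang := by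
  obtain ⟨A, ⟨p, R, hR, hA⟩, q, ev, hq, hev, hL⟩ := hL
  have hR' := PT.of_isPolyTime hR
  have hq' := PT.of_isPolyTime hq
  have hev' := PT.of_isPolyTime hev
  let ok : List Bool → List (Bool × List Bool) → Bool := fun x W =>
    decide ((q x).length = W.length) && ((q x).zip W).all fun e =>
      decide (e.2.2.length ≤ p.eval e.1.length) && (!e.2.1 || R (e.1, e.2.2))
  have hok : PT fun z : List Bool × List (Bool × List Bool) => ok z.1 z.2 := by
    unfold ok; fun_prop
  have hok_iff : ∀ x W, ok x W = true ↔ List.Forall₂ (fun (y : List Bool) (c : Bool × List Bool) =>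
      c.2.length ≤ p.eval y.length ∧ (c.1 = true → R (y, c.2) = true)) (q x) W := by
    intro x W
    rw [List.forall₂_iff_zip]
    simp only [ok, Bool.and_eq_true, decide_eq_true_eq, List.all_eq_true, Bool.or_eq_true,
      Bool.not_eq_eq_eq_not, Bool.not_true]
    refine and_congr_right fun _ => ⟨fun h a b hab => ⟨(h (a, b) hab).1, fun hb => ?_⟩,
      fun h e he => ⟨(h (a := e.1) (b := e.2) he).1, ?_⟩⟩
    · simpa [hb] using (h (a, b) hab).2
    · cases hb : e.2.1
      · exact Or.inl rfl
      · exact Or.inr ((h (a := e.1) (b := e.2) he).2 hb)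
  have hsound : ∀ x W, ok x W = true →
      List.Forall₂ (fun a b => a = true → b = true) (W.map Prod.fst) ((q x).map A) := by
    intro x W h
    rw [hok_iff] at h
    rw [List.forall₂_map_left_iff, List.forall₂_map_right_iff]
    have h2 : List.Forall₂ (fun (y : List Bool) (c : Bool × List Bool) =>
        c.1 = true → A y = true) (q x) W :=
      h.imp fun y c hc (h1 : c.1 = true) => (hA y).2 ⟨c.2, hc.1, hc.2 h1⟩
    exact h2.flip
  have hcomp : ∀ x, ∃ W, ok x W = true ∧ W.map Prod.fst = (q x).map A := by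
    intro x
    have : ∀ y, ∃ w : List Bool, w.length ≤ p.eval y.length ∧ (A y = true → R (y, w) = true) := by
      intro y
      by_cases h : A y = true
      · obtain ⟨w, h1, h2⟩ := (hA y).1 h
        exact ⟨w, h1, fun _ => h2⟩
      · exact ⟨[], by simp, fun h' => absurd h' h⟩
    choose w hw using this
    refine ⟨(q x).map fun y => (A y, w y), ?_, by simp [Function.comp_def]⟩
    rw [hok_iff, List.forall₂_map_right_iff, List.forall₂_same]
    exact fun y _ => hw y
  let n : List Bool × ℕ → ℕ := fun a =>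
    (q a.1).length * (2 * (3 + 3 * p.eval (q a.1).flatten.length) + 1)
  have hn : PT fun a => un (n a) := by
    have h1 : PT fun a : List Bool × ℕ => un (p.eval (q a.1).flatten.length) :=
      PT.un_poly (by fun_prop) p
    exact PT.un_mul (by fun_prop) (PT.un_add (PT.un_mul (PT.const _)
      (PT.un_add (PT.const _) (PT.un_mul (PT.const _) h1))) (PT.const _))
  have hB : ∀ (a : List Bool × ℕ) W, ok a.1 W = true → sz W ≤ n a := by
    intro a W h
    rw [hok_iff] at h
    simp only [n]
    rw [h.length_eq]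
    refine sz_le_of_forall fun c hc => ?_
    obtain ⟨i, hi, rfl⟩ := List.getElem_of_mem hc
    have hi' : i < (q a.1).length := h.length_eq ▸ hi
    have h1 := (h.get hi' hi).1
    simp only [List.get_eq_getElem] at h1
    have h2 : ((q a.1)[i]).length ≤ (q a.1).flatten.length :=
      (List.sublist_flatten_of_mem (List.getElem_mem hi')).length_le
    have h3 := eval_mono p h2
    have h4 : sz W[i] = 3 + 3 * W[i].2.length := by
      rw [show W[i] = (W[i].1, W[i].2) from rfl, sz_pair, sz_list_bool]; simp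
    omega
  obtain ⟨fP, p1, -, p3⟩ := cookLevin3_typed (α := List Bool × ℕ) ([], 0) []
    (fun z => ok z.1.1 z.2 && (decide ((z.2.map Prod.fst).count true = z.1.2) &&
      ev (z.1.1, z.2.map Prod.fst))) (by fun_prop) n hn
    (fun a W h => hB a W (by simp only [Bool.and_eq_true] at h; exact h.1))
  obtain ⟨fN, n1, n2, n3⟩ := cookLevin3_typed (α := List Bool × ℕ) ([], 0) []
    (fun z => ok z.1.1 z.2 && decide (z.1.2 < (z.2.map Prod.fst).count true)) (by fun_prop) n hn
    (fun a W h => hB a W (by simp only [Bool.and_eq_true] at h; exact h.1))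
  let ps : List Bool → List (CNF × CNF) := fun x =>
    (List.range ((q x).length + 1)).map fun d => (fP (x, d), fN (x, d))
  have hps : PT ps := by unfold ps; fun_prop
  refine ⟨_, (pt_instOf hps).isPolyTime, fun x => ?_⟩
  rw [Bool.eq_iff_iff]
  simp only [edgeStrongLang, decide_eq_true_eq]
  rw [edgeStrong_gadget _ (instOf_wf _ (by
    intro p hp
    obtain ⟨d, -, rfl⟩ := List.mem_map.1 hp
    exact n2 _)), instOf_yes, hL]
  simp only [ps, List.mem_map, List.mem_range, exists_exists_and_eq_and, p3, n3, Bool.and_eq_true,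
    decide_eq_true_eq]
  obtain ⟨W0, h1, h2⟩ := hcomp x
  constructor
  · intro h
    refine ⟨((q x).map A).count true, ?_, ⟨W0, h1, by rw [h2], by rw [h2]; exact h⟩, ?_⟩
    · have := List.count_le_length (a := true) (l := (q x).map A)
      simp only [List.length_map] at this
      omega
    · rintro ⟨W, h3, h4⟩
      have := (count_le_of_forall₂ (hsound x W h3)).1
      omega
  · rintro ⟨d, -, ⟨W, h3, h4, h5⟩, h6⟩
    have h7 : ¬ d < ((q x).map A).count true := fun h => h6 ⟨W0, h1, by rw [h2]; exact h⟩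
    rw [← (count_le_of_forall₂ (hsound x W h3)).2 (by omega)]
    exact h5

end Pool.Agent.MP_38a5c8_lc.H27
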