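import Pool.Agent.MP_38a5c8_lc.H27.Defs
import Pool.Agent.Shared.H27.TypedNP

set_option autoImplicit false

namespace Pool.Agent.MP_38a5c8_lc.H27

open Pool.Agent.Shared.H27 Pool.Agent.Shared.H56 N68a2faeb

/-- a list of pairs (maximal stable set, clique missing it) in which each clique meets all the
stable sets later in the list -/
def Chain {V : Type} (G : SimpleGraph V) (W : List (Set V × Set V)) : Prop :=
  (∀ p ∈ W, Maximal G.IsIndepSet p.1 ∧ G.IsClique p.2 ∧ ¬ (p.2 ∩ p.1).Nonempty) ∧
    W.Pairwise fun p q => (p.2 ∩ q.1).Nonempty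

theorem chain_length_le {V : Type} [Fintype V] (G : SimpleGraph V) (W : List (Set V × Set V))
    (h : Chain G W) : W.length ≤ Fintype.card V + 1 := by
  classical
  let vec : Set V → (Option V → ℚ) := fun S o => o.elim 1 fun i => if i ∈ S then 1 else 0
  let f : Set V → ((Option V → ℚ) →ₗ[ℚ] ℚ) := fun K =>
    LinearMap.proj none - ∑ i ∈ Finset.univ.filter (· ∈ K), LinearMap.proj (some i)
  have hf : ∀ K S, f K (vec S) = 1 - ((Finset.univ.filter fun i => i ∈ K ∩ S).card : ℚ) := by
    intro K S
    simp [f, vec, Finset.filter_filter]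
  have key : W.length ≤ Module.finrank ℚ (Submodule.span ℚ {v | ∃ p ∈ W, v = vec p.1}) := by
    induction W with
    | nil => simp
    | cons p W ih =>
      have hp := h.1 p List.mem_cons_self
      have h2 := List.pairwise_cons.1 h.2
      have ih' := ih ⟨fun q hq => h.1 q (List.mem_cons_of_mem _ hq), h2.2⟩
      have hlt : Submodule.span ℚ {v | ∃ q ∈ W, v = vec q.1} <
          Submodule.span ℚ {v | ∃ q ∈ p :: W, v = vec q.1} := by
        refine lt_of_le_of_ne (Submodule.span_mono ?_) fun he => ?_
        · rintro v ⟨q, hq, rfl⟩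
          exact ⟨q, List.mem_cons_of_mem _ hq, rfl⟩
        · have h3 : vec p.1 ∈ Submodule.span ℚ {v | ∃ q ∈ W, v = vec q.1} := by
            rw [he]; exact Submodule.subset_span ⟨p, List.mem_cons_self, rfl⟩
          have h4 : Submodule.span ℚ {v | ∃ q ∈ W, v = vec q.1} ≤ LinearMap.ker (f p.2) := by
            rw [Submodule.span_le]
            rintro v ⟨q, hq, rfl⟩
            obtain ⟨i, hi⟩ := h2.1 q hq
            have : (Finset.univ.filter fun j => j ∈ p.2 ∩ q.1) = {i} := by
              ext j
              simp only [Finset.mem_filter, Finset.mem_univ, true_and, Finset.mem_singleton]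
              refine ⟨fun hj => ?_, fun hj => hj ▸ hi⟩
              by_contra hne
              exact (h.1 q (List.mem_cons_of_mem _ hq)).1.prop hj.2 hi.2 hne (hp.2.1 hj.1 hi.1 hne)
            rw [SetLike.mem_coe, LinearMap.mem_ker, hf, this]
            simp
          have h5 := h4 h3
          have : (Finset.univ.filter fun j => j ∈ p.2 ∩ p.1) = ∅ :=
            Finset.filter_eq_empty_iff.2 fun j _ hj => hp.2.2 ⟨j, hj⟩
          rw [LinearMap.mem_ker, hf, this] at h5
          simp at h5
      have := Submodule.finrank_lt_finrank_of_lt hlt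
      simp only [List.length_cons]
      omega
  have h2 := Submodule.finrank_le (Submodule.span ℚ {v | ∃ p ∈ W, v = vec p.1})
  simp only [Module.finrank_fintype_fun_eq_card, Fintype.card_option] at h2
  omega

theorem edgeStrong_iff_chain {V : Type} [Fintype V] (G : SimpleGraph V) (m : ℕ)
    (hm : Fintype.card V + 1 < m) :
    EdgeStrong G ↔ ∃ d < m, (∃ W, Chain G W ∧ W.length = d ∧ ∀ u v, G.Adj u v →
      ∃ C, G.IsClique C ∧ u ∈ C ∧ v ∈ C ∧ ∀ p ∈ W, (C ∩ p.1).Nonempty) ∧
      ¬ ∃ W, Chain G W ∧ W.length = d + 1 := by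
  classical
  constructor
  · intro h
    have hex : ∃ d, (∃ W, Chain G W ∧ W.length = d) ∧ ¬ ∃ W, Chain G W ∧ W.length = d + 1 := by
      by_contra hcon
      push Not at hcon
      have : ∀ d, ∃ W, Chain G W ∧ W.length = d := by
        intro d
        induction d with
        | zero => exact ⟨[], ⟨by simp, List.Pairwise.nil⟩, rfl⟩
        | succ d ih => exact hcon d ih
      obtain ⟨W, h1, h2⟩ := this (Fintype.card V + 2)
      have := chain_length_le G W h1
      omega
    obtain ⟨d, ⟨W, h1, h2⟩, h3⟩ := hex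
    refine ⟨d, by have := chain_length_le G W h1; omega, ⟨W, h1, h2, fun u v huv => ?_⟩, h3⟩
    obtain ⟨C, h4, h5, h6⟩ := h u v huv
    exact ⟨C, h4.1, h5, h6, fun p hp => h4.2 _ (h1.1 p hp).1⟩
  · rintro ⟨d, -, ⟨W, h1, h2, h3⟩, h4⟩ u v huv
    obtain ⟨C, c1, c2, c3, c4⟩ := h3 u v huv
    refine ⟨C, ⟨c1, fun S hS => ?_⟩, c2, c3⟩
    by_contra hcon
    refine h4 ⟨(S, C) :: W, ⟨?_, List.pairwise_cons.2 ⟨c4, h1.2⟩⟩, by simp [h2]⟩
    intro p hp
    rcases List.mem_cons.1 hp with rfl | hp
    · exact ⟨hS, c1, hcon⟩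
    · exact h1.1 p hp

/-- adjacency read from the bit string -/
def adjB (x : List Bool) (n i j : ℕ) : Bool :=
  decide (i ≠ j) && (x.getD (i * n + j) false || x.getD (j * n + i) false)

def maxStabB (x : List Bool) (R r : List Bool) : Bool :=
  (List.range R.length).all fun i =>
    ((List.range R.length).all fun j =>
      !(r.getD i false && r.getD j false && adjB x R.length i j)) &&
    (r.getD i false || (List.range R.length).any fun j => r.getD j false && adjB x R.length i j)

def cliqueB (x : List Bool) (R r : List Bool) : Bool :=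
  (List.range R.length).all fun i => (List.range R.length).all fun j =>
    !(r.getD i false && r.getD j false && decide (i ≠ j)) || adjB x R.length i j

def meetsB (R r s : List Bool) : Bool :=
  (List.range R.length).any fun i => r.getD i false && s.getD i false

def chainB (x R : List Bool) (W : List (List Bool × List Bool)) : Bool :=
  (W.all fun p => maxStabB x R p.1 && (cliqueB x R p.2 && !meetsB R p.2 p.1)) &&
    (List.range W.length).all fun a =>
      (W.drop (a + 1)).all fun q => meetsB R (W.getD a ([], [])).2 q.1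

def coverB (x R : List Bool) (W : List (List Bool × List Bool)) (Cs : List (List Bool)) : Bool :=
  (List.range R.length).all fun i => (List.range R.length).all fun j =>
    !adjB x R.length i j || Cs.any fun c =>
      cliqueB x R c && (c.getD i false && (c.getD j false && W.all fun p => meetsB R c p.1))

/-- the set of vertices written by a row of bits -/
def bitSet (n : ℕ) (r : List Bool) : Set (Fin n) := {i | r.getD i.1 false = true}

theorem exists_row {n : ℕ} (S : Set (Fin n)) : ∃ r : List Bool, r.length = n ∧ bitSet n r = S := by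
  classical
  refine ⟨List.ofFn fun i => decide (i ∈ S), by simp, ?_⟩
  ext i
  simp [bitSet]

section correct

variable (x : List Bool)

theorem adjB_iff (i j : Fin (Nat.sqrt x.length)) :
    adjB x (Nat.sqrt x.length) i.1 j.1 = true ↔ (graphOf x).Adj i j := by
  simp [adjB, graphOf, SimpleGraph.fromRel_adj, Fin.ext_iff]

theorem maximal_indep_iff {V : Type} (G : SimpleGraph V) (S : Set V) :
    Maximal G.IsIndepSet S ↔ ∀ i, (∀ j, i ∈ S → j ∈ S → ¬ G.Adj i j) ∧
      (i ∈ S ∨ ∃ j ∈ S, G.Adj i j) := by
  constructor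
  · intro h i
    refine ⟨fun j hi hj hij => h.prop hi hj hij.ne hij, ?_⟩
    by_contra hcon
    push Not at hcon
    have : G.IsIndepSet (insert i S) := by
      rintro a (rfl | ha) b (rfl | hb) hab
      · exact absurd rfl hab
      · exact hcon.2 b hb
      · exact fun g => hcon.2 a ha g.symm
      · exact h.prop ha hb hab
    exact hcon.1 (h.le_of_ge this (Set.subset_insert _ _) (Set.mem_insert _ _))
  · intro h
    refine ⟨fun a ha b hb _ => (h a).1 b ha hb, fun T hT hST i hi => ?_⟩
    rcases (h i).2 with g | ⟨j, hj, g⟩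
    · exact g
    · exact absurd g (hT hi (hST hj) g.ne)

theorem maxStabB_iff (r : List Bool) : maxStabB x (un (Nat.sqrt x.length)) r = true ↔
    Maximal (graphOf x).IsIndepSet (bitSet _ r) := by
  rw [maximal_indep_iff]
  simp only [maxStabB, un, List.length_replicate, List.all_eq_true, List.mem_range,
    Bool.and_eq_true, Bool.not_eq_eq_eq_not, Bool.not_true, Bool.or_eq_true, List.any_eq_true,
    ← adjB_iff, bitSet, Set.mem_ofPred_eq, Fin.forall_iff, Fin.exists_iff, Bool.and_eq_false_imp,
    and_imp, Bool.not_eq_true, exists_prop]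

theorem cliqueB_iff (r : List Bool) : cliqueB x (un (Nat.sqrt x.length)) r = true ↔
    (graphOf x).IsClique (bitSet _ r) := by
  simp only [cliqueB, un, List.length_replicate, List.all_eq_true, List.mem_range,
    Bool.or_eq_true, Bool.not_eq_eq_eq_not, Bool.not_true, SimpleGraph.isClique_iff, Set.Pairwise,
    ← adjB_iff, bitSet, Set.mem_ofPred_eq, Fin.forall_iff, ne_eq, Fin.mk.injEq]
  refine forall₂_congr fun i _ => ?_
  constructor
  · intro h hi j hj hj2 hne
    have := h j hj
    rw [hi, hj2] at this
    simpa [hne] using this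
  · intro h j hj
    by_cases hi : r.getD i false = true
    · by_cases hj2 : r.getD j false = true
      · by_cases hne : i = j
        · simp [hne]
        · exact Or.inr (h hi j hj hj2 hne)
      · simp only [Bool.not_eq_true] at hj2
        left; rw [hj2]; simp
    · simp only [Bool.not_eq_true] at hi
      left; rw [hi]; simp

theorem meetsB_iff (n : ℕ) (r s : List Bool) :
    meetsB (un n) r s = true ↔ (bitSet n r ∩ bitSet n s).Nonempty := by
  simp only [meetsB, un, List.length_replicate, List.any_eq_true, List.mem_range, Bool.and_eq_true,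
    Set.Nonempty, bitSet, Set.mem_inter_iff, Set.mem_ofPred_eq, Fin.exists_iff, exists_prop]

theorem chainB_iff (W : List (List Bool × List Bool)) :
    chainB x (un (Nat.sqrt x.length)) W = true ↔
      Chain (graphOf x) (W.map fun p => (bitSet _ p.1, bitSet _ p.2)) := by
  simp only [chainB, Chain, Bool.and_eq_true, List.all_eq_true, maxStabB_iff, cliqueB_iff,
    Bool.not_eq_eq_eq_not, Bool.not_true, ← Bool.not_eq_true, meetsB_iff, List.mem_map,
    forall_exists_index, and_imp, forall_apply_eq_imp_iff₂, List.pairwise_map, List.mem_range]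
  refine and_congr_right fun _ => ?_
  rw [List.pairwise_iff_getElem]
  constructor
  · intro h a b ha hb hab
    have := h a ha W[b] (List.mem_drop_iff_getElem.2 ⟨b - (a + 1), by omega, by congr 1; omega⟩)
    rwa [List.getD_eq_getElem _ _ ha] at this
  · intro h a ha q hq
    obtain ⟨b, hb, rfl⟩ := List.mem_drop_iff_getElem.1 hq
    rw [List.getD_eq_getElem _ _ ha]
    exact h a _ ha (by omega) (by omega)

theorem coverB_iff (W : List (List Bool × List Bool)) (Cs : List (List Bool)) :
    coverB x (un (Nat.sqrt x.length)) W Cs = true ↔ ∀ u v, (graphOf x).Adj u v →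
      ∃ c ∈ Cs, (graphOf x).IsClique (bitSet _ c) ∧ u ∈ bitSet _ c ∧ v ∈ bitSet _ c ∧
        ∀ p ∈ W, (bitSet (Nat.sqrt x.length) c ∩ bitSet _ p.1).Nonempty := by
  have hl : (un (Nat.sqrt x.length)).length = Nat.sqrt x.length := by simp [un]
  simp only [coverB, hl, List.all_eq_true, List.mem_range, Bool.or_eq_true, Bool.not_eq_eq_eq_not,
    Bool.not_true, List.any_eq_true, Bool.and_eq_true, cliqueB_iff, meetsB_iff, ← adjB_iff,
    Fin.forall_iff, ← Bool.not_eq_true, ← imp_iff_not_or]
  rfl

end correct

theorem sqrt_eq_count (m : ℕ) :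
    ((List.range m).filter fun k => decide ((k + 1) * (k + 1) ≤ m)).length = Nat.sqrt m := by
  have h1 : ((List.range m).filter fun k => decide ((k + 1) * (k + 1) ≤ m)) =
      List.range (Nat.sqrt m) := by
    have h2 := Nat.sqrt_le_self m
    obtain ⟨t, ht⟩ : ∃ t, m = Nat.sqrt m + t := ⟨m - Nat.sqrt m, by omega⟩
    conv_lhs => rw [ht, List.range_add, List.filter_append, ← ht]
    rw [List.filter_eq_self.2, List.filter_eq_nil_iff.2, List.append_nil]
    · intro k hk
      obtain ⟨j, -, rfl⟩ := List.mem_map.1 hk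
      simp only [decide_eq_true_eq, ← Nat.le_sqrt]
      omega
    · intro k hk
      simp only [decide_eq_true_eq, ← Nat.le_sqrt]
      exact List.mem_range.1 hk
  rw [h1, List.length_range]

/-- membership -/
theorem edgeStrong_mem : edgeStrongLang ∈ ParallelNP := by
  have hsq : PT fun x : List Bool => un (Nat.sqrt x.length) := by
    simp only [← sqrt_eq_count]
    fun_prop
  obtain ⟨U, hU, eU⟩ : ∃ U : List Bool → List Bool, PT U ∧ ∀ x, U x = un (Nat.sqrt x.length) :=
    ⟨_, hsq, fun _ => rfl⟩
  let R : (List Bool × ℕ × Bool) × (List (List Bool × List Bool) × List (List Bool)) → Bool :=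
    fun z => (decide (z.2.1.length ≤ z.1.1.length + 2) && (decide (z.2.2.length ≤ z.1.1.length) &&
      ((z.2.1.all fun p => decide (p.1.length ≤ z.1.1.length) &&
        decide (p.2.length ≤ z.1.1.length)) &&
        z.2.2.all fun c => decide (c.length ≤ z.1.1.length)))) &&
      (decide (z.2.1.length = z.1.2.1) && (chainB z.1.1 (U z.1.1) z.2.1 &&
        (!z.1.2.2 || coverB z.1.1 (U z.1.1) z.2.1 z.2.2)))
  have hR : PT R := by
    unfold R chainB coverB maxStabB cliqueB meetsB adjB
    fun_prop
  obtain ⟨A, hA, hAR⟩ := exists_NP_typed (α := List Bool × ℕ × Bool) ([], 0, false) ([], []) R hR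
    (fun a => 2 * ((a.1.length + 2) * (2 * (9 * a.1.length + 1) + 1)) + 1 +
      a.1.length * (2 * (3 * a.1.length) + 1)) (by fun_prop) (by
      rintro ⟨x, d, b⟩ ⟨W, Cs⟩ h
      simp only [R, Bool.and_eq_true, decide_eq_true_eq, List.all_eq_true] at h
      obtain ⟨⟨h1, h2, h3, h4⟩, -⟩ := h
      have g1 : sz W ≤ W.length * (2 * (9 * x.length + 1) + 1) := sz_le_of_forall fun p hp => by
        have := h3 p hp
        rw [show p = (p.1, p.2) from rfl, sz_pair, sz_list_bool, sz_list_bool]
        omega
      have g2 : sz Cs ≤ Cs.length * (2 * (3 * x.length) + 1) := sz_le_of_forall fun c hc => by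
        have := h4 c hc
        rw [sz_list_bool]
        omega
      have g3 := Nat.mul_le_mul_right (2 * (9 * x.length + 1) + 1) h1
      have g4 := Nat.mul_le_mul_right (2 * (3 * x.length) + 1) h2
      rw [sz_pair]
      dsimp only
      omega)
  refine ⟨A, hA, fun x => ((List.range (x.length + 2)).map fun d => enc (x, d, true)) ++
      (List.range (x.length + 2)).map fun d => enc (x, d + 1, false),
    fun z => (List.range (z.1.length + 2)).any fun d =>
      z.2.getD d false && !z.2.getD (z.1.length + 2 + d) false,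
    PT.isPolyTime (by fun_prop), PT.isPolyTime (by fun_prop), fun x => ?_⟩
  have hn := Nat.sqrt_le_self x.length
  have hrows : ∀ W : List (Set (Fin (Nat.sqrt x.length)) × Set (Fin (Nat.sqrt x.length))),
      ∃ W' : List (List Bool × List Bool), (W'.map fun p => (bitSet _ p.1, bitSet _ p.2)) = W ∧
        ∀ p ∈ W', p.1.length ≤ x.length ∧ p.2.length ≤ x.length := by
    intro W
    choose r hr using fun S : Set (Fin (Nat.sqrt x.length)) => exists_row S
    refine ⟨W.map fun p => (r p.1, r p.2), by simp [Function.comp_def, (hr _).2], fun p hp => ?_⟩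
    obtain ⟨q, -, rfl⟩ := List.mem_map.1 hp
    simp [(hr _).1, hn]
  have h1 : ∀ d < x.length + 2, A (enc (x, d + 1, false)) = true ↔
      ∃ W, Chain (graphOf x) W ∧ W.length = d + 1 := by
    intro d hd
    rw [hAR]
    simp only [R, Bool.and_eq_true, decide_eq_true_eq, List.all_eq_true, eU, chainB_iff,
      Bool.not_false, Bool.true_or, and_true, Prod.exists]
    constructor
    · rintro ⟨W, Cs, -, g1, g2⟩
      exact ⟨_, g2, by simpa using g1⟩
    · rintro ⟨W, g1, g2⟩
      obtain ⟨W', rfl, g3⟩ := hrows W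
      rw [List.length_map] at g2
      exact ⟨W', [], ⟨by omega, by simp, g3, by simp⟩, g2, g1⟩
  have h2 : ∀ d < x.length + 2, A (enc (x, d, true)) = true ↔
      ∃ W, Chain (graphOf x) W ∧ W.length = d ∧ ∀ u v, (graphOf x).Adj u v →
        ∃ C, (graphOf x).IsClique C ∧ u ∈ C ∧ v ∈ C ∧ ∀ p ∈ W, (C ∩ p.1).Nonempty := by
    intro d hd
    rw [hAR]
    simp only [R, Bool.and_eq_true, decide_eq_true_eq, List.all_eq_true, eU, chainB_iff,
      Bool.not_true, Bool.false_or, coverB_iff, Prod.exists]
    constructor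
    · rintro ⟨W, Cs, -, g1, g2, g3⟩
      refine ⟨_, g2, by simpa using g1, fun u v huv => ?_⟩
      obtain ⟨c, -, c1, c2, c3, c4⟩ := g3 u v huv
      refine ⟨_, c1, c2, c3, fun p hp => ?_⟩
      obtain ⟨q, hq, rfl⟩ := List.mem_map.1 hp
      exact c4 q hq
    · rintro ⟨W, g1, g2, g4⟩
      obtain ⟨W', rfl, g3⟩ := hrows W
      rw [List.length_map] at g2
      have : ∀ e : Fin (Nat.sqrt x.length) × Fin (Nat.sqrt x.length), ∃ c : List Bool,
          c.length = Nat.sqrt x.length ∧ ((graphOf x).Adj e.1 e.2 →
          (graphOf x).IsClique (bitSet _ c) ∧ e.1 ∈ bitSet _ c ∧ e.2 ∈ bitSet _ c ∧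
          ∀ p ∈ W', (bitSet (Nat.sqrt x.length) c ∩ bitSet _ p.1).Nonempty) := by
        intro e
        by_cases he : (graphOf x).Adj e.1 e.2
        · obtain ⟨C, c1, c2, c3, c4⟩ := g4 _ _ he
          obtain ⟨c, k1, rfl⟩ := exists_row C
          exact ⟨c, k1, fun _ => ⟨c1, c2, c3, fun p hp => c4 _ (List.mem_map.2 ⟨p, hp, rfl⟩)⟩⟩
        · obtain ⟨c, k1, -⟩ := exists_row (∅ : Set (Fin (Nat.sqrt x.length)))
          exact ⟨c, k1, fun h => absurd h he⟩
      choose c hc using this
      refine ⟨W', Finset.univ.toList.map c, ⟨by omega, ?_, g3, ?_⟩, g2, g1, fun u v huv =>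
        ⟨c (u, v), List.mem_map.2 ⟨(u, v), by simp, rfl⟩, (hc (u, v)).2 huv⟩⟩
      · simpa using Nat.sqrt_le x.length
      · intro r hr
        obtain ⟨e, -, rfl⟩ := List.mem_map.1 hr
        rw [(hc e).1]; exact hn
  rw [Bool.eq_iff_iff]
  simp only [edgeStrongLang, decide_eq_true_eq]
  rw [edgeStrong_iff_chain _ (x.length + 2) (by simp; omega)]
  simp only [List.any_eq_true, List.mem_range, Bool.and_eq_true, Bool.not_eq_eq_eq_not,
    Bool.not_true]
  refine exists_congr fun d => and_congr_right fun hd => ?_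
  rw [← h1 d hd, ← h2 d hd, List.map_append, List.getD_append _ _ _ _ (by simpa using hd),
    List.getD_append_right _ _ _ _ (by simp)]
  simp [List.getD_eq_getElem?_getD, hd]

end Pool.Agent.MP_38a5c8_lc.H27
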