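import Pool.Agent.Shared.H27.Tableau

set_option autoImplicit false

namespace Pool.Agent.MP_38a5c8_lc.H27

open Pool.Agent.Shared.H27

/-- literals -/
abbrev Lit := ℕ × Bool

/-- all literals of the list hold -/
def SatL (y : ℕ → Bool) (L : List Lit) : Prop := ∀ l ∈ L, y l.1 = l.2

/-- the negations of the literals of a clause -/
def negC (c : List Lit) : List Lit := c.map fun l => (l.1, !l.2)

/-- the literals that `y` makes true on the variables `W` -/
def restrict (y : ℕ → Bool) (W : List ℕ) : List Lit := W.map fun v => (v, y v)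

/-- no literal of `L` is complementary to a literal of `L'` -/
def noConf (L L' : List Lit) : Bool :=
  L.all fun l => L'.all fun l' => !(decide (l.1 = l'.1)) || decide (l.2 = l'.2)

theorem noConf_iff {L L' : List Lit} :
    noConf L L' = true ↔ ∀ l ∈ L, ∀ l' ∈ L', l.1 = l'.1 → l.2 = l'.2 := by
  simp only [noConf, List.all_eq_true, Bool.or_eq_true, Bool.not_eq_eq_eq_not, Bool.not_true,
    decide_eq_false_iff_not, decide_eq_true_eq]
  constructor
  · intro h l hl l' hl' h1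
    exact (h l hl l' hl').resolve_left (not_not.2 h1)
  · intro h l hl l' hl'
    by_cases h1 : l.1 = l'.1
    · exact Or.inr (h l hl l' hl' h1)
    · exact Or.inl h1

theorem noConf_of_satL {y : ℕ → Bool} {L L' : List Lit} (h : SatL y L) (h' : SatL y L') :
    noConf L L' = true :=
  noConf_iff.2 fun l hl l' hl' e => by rw [← h l hl, ← h' l' hl', e]

theorem exists_satL (F : Set (List Lit)) (h : ∀ L ∈ F, ∀ L' ∈ F, noConf L L' = true) :
    ∃ y, ∀ L ∈ F, SatL y L := by
  classical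
  refine ⟨fun v => decide (∃ L ∈ F, (v, true) ∈ L), fun L hL l hl => ?_⟩
  obtain ⟨v, b⟩ := l
  cases b
  · simp only [decide_eq_false_iff_not]
    rintro ⟨L', hL', h2⟩
    simpa using noConf_iff.1 (h L hL L' hL') _ hl _ h2 rfl
  · simp only [decide_eq_true_eq]
    exact ⟨L, hL, hl⟩

theorem satL_append {y : ℕ → Bool} {L L' : List Lit} :
    SatL y (L ++ L') ↔ SatL y L ∧ SatL y L' := by
  simp only [SatL, List.mem_append, or_imp, forall_and]

theorem satL_restrict_iff {y y' : ℕ → Bool} {W : List ℕ} :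
    SatL y' (restrict y W) ↔ ∀ v ∈ W, y' v = y v := by
  simp [SatL, restrict]

theorem restrict_of_satL {y : ℕ → Bool} {L : List Lit} (h : SatL y L) :
    restrict y (L.map Prod.fst) = L := by
  rw [restrict, List.map_map]
  conv_rhs => rw [← List.map_id L]
  exact List.map_congr_left fun l hl => by simp [h l hl]

theorem satL_congr {y y' : ℕ → Bool} {L : List Lit} (h : ∀ v ∈ L.map Prod.fst, y' v = y v) :
    SatL y' L ↔ SatL y L :=
  forall₂_congr fun l hl => by rw [h _ (List.mem_map_of_mem hl)]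

theorem satL_negC {y : ℕ → Bool} {c : List Lit} : SatL y (negC c) ↔ ¬ ∃ l ∈ c, y l.1 = l.2 := by
  simp only [SatL, negC, List.mem_map, forall_exists_index, and_imp, forall_apply_eq_imp_iff₂,
    not_exists, not_and]
  exact forall₂_congr fun l _ => by cases y l.1 <;> cases l.2 <;> simp

/-- types of layers: special, or a falsified clause -/
inductive Ty
  | sp (s : ℕ)
  | cl (c : List Lit)

/-- kinds of events in a region -/
inductive Kind
  | U (s : ℕ)
  | T (τ : Ty)

/-- which layers an event meets; `none` is the layer of satisfying assignments -/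
def adm : Kind → Option Ty → Prop
  | .U s, some (.sp s') => s = s'
  | .U _, _ => True
  | .T τ, θ => θ = some τ

/-- literals forced by a type -/
def tyLits : Ty → List Lit
  | .sp _ => []
  | .cl c => negC c

/-- literals forced by a kind -/
def kindLits : Kind → List Lit
  | .U _ => []
  | .T τ => tyLits τ

/-- the type exists in the region -/
def tyOK (ψ : CNF) (I : List ℕ) : Ty → Prop
  | .sp s => s ∈ I
  | .cl c => c ∈ ψ

/-- the kind exists in the region -/
def kindOK (ψ : CNF) (I : List ℕ) : Kind → Prop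
  | .U s => s ∈ I
  | .T τ => tyOK ψ I τ

/-- points of a region -/
def RPt (ψ : CNF) (I : List ℕ) : Option Ty → (ℕ → Bool) → Prop
  | none, y => Satisfies y ψ
  | some τ, y => tyOK ψ I τ ∧ SatL y (tyLits τ)

/-- a list of six variables from `n` -/
def Six (n : List ℕ) (W : List ℕ) : Prop := W.length = 6 ∧ ∀ v ∈ W, v ∈ n

/-- events of a region -/
def RValid (ψ : CNF) (I : List ℕ) (n : List ℕ) (X : Kind × List Lit) : Prop :=
  kindOK ψ I X.1 ∧ Six n (X.2.map Prod.fst) ∧
    noConf (X.2 ++ kindLits X.1) (X.2 ++ kindLits X.1) = true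

/-- membership of a point in an event -/
def RMem (θ : Option Ty) (y : ℕ → Bool) (X : Kind × List Lit) : Prop := adm X.1 θ ∧ SatL y X.2

/-- selectors in a region -/
structure RSel (ψ : CNF) (I : List ℕ) (n : List ℕ) (e : Option Ty → (ℕ → Bool) → Kind × List Lit) :
    Prop where
  valid : ∀ θ y, RPt ψ I θ y → RValid ψ I n (e θ y)
  mem : ∀ θ y, RPt ψ I θ y → RMem θ y (e θ y)
  const : ∀ θ y θ' y', RPt ψ I θ y → RPt ψ I θ' y' → RMem θ' y' (e θ y) → e θ' y' = e θ y

/-- the selector includes the event -/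
def Incl (ψ : CNF) (I : List ℕ) (e : Option Ty → (ℕ → Bool) → Kind × List Lit)
    (X : Kind × List Lit) : Prop :=
  ∀ θ y, RPt ψ I θ y → RMem θ y X → e θ y = X

theorem satL_kindLits {ψ : CNF} {I : List ℕ} {θ : Option Ty} {y : ℕ → Bool} {κ : Kind}
    (h : RPt ψ I θ y) (ha : adm κ θ) : SatL y (kindLits κ) := by
  cases κ with
  | U s => intro l hl; simp [kindLits] at hl
  | T τ =>
    simp only [adm] at ha
    subst ha
    exact h.2

theorem restrict_congr {y y' : ℕ → Bool} {W : List ℕ} (h : ∀ v ∈ W, y' v = y v) :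
    restrict y' W = restrict y W :=
  List.map_congr_left fun v hv => by rw [h v hv]

theorem exists_rsel (ψ : CNF) (I : List ℕ) (n : List ℕ) (w0 : (ℕ → Bool) → List ℕ)
    (κ : (ℕ → Bool) → Option ℕ) (w : Ty → (ℕ → Bool) → List ℕ)
    (ha0 : ∀ y, Six n (w0 y)) (ha : ∀ τ y, tyOK ψ I τ → Six n (w τ y))
    (hb : ∀ y s, κ y = some s → s ∈ I) (hc : ∀ y, Satisfies y ψ → κ y ≠ none)
    (hd : ∀ y y', (∀ v ∈ w0 y, y' v = y v) → w0 y' = w0 y ∧ κ y' = κ y)
    (he : ∀ τ y y', RPt ψ I (some τ) y → RPt ψ I (some τ) y' →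
      (¬ ∃ s, κ y = some s ∧ adm (.U s) (some τ)) → (∀ v ∈ w τ y, y' v = y v) →
      w τ y' = w τ y ∧ ¬ ∃ s, κ y' = some s ∧ adm (.U s) (some τ)) :
    ∃ e, RSel ψ I n e ∧
      (∀ s L, (∀ y, SatL y L → κ y = some s ∧ w0 y = L.map Prod.fst) → Incl ψ I e (.U s, L)) ∧
      (∀ τ L, (∀ y, RPt ψ I (some τ) y → SatL y L →
        (¬ ∃ s, κ y = some s ∧ adm (.U s) (some τ)) ∧ w τ y = L.map Prod.fst) →
        Incl ψ I e (.T τ, L)) ∧
      ∀ θ y s L, RPt ψ I θ y → e θ y = (.U s, L) → κ y = some s ∧ L = restrict y (w0 y) := by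
  classical
  let e : Option Ty → (ℕ → Bool) → Kind × List Lit := fun θ y =>
    if ∃ s, κ y = some s ∧ adm (.U s) θ then (.U ((κ y).getD 0), restrict y (w0 y))
    else (.T (θ.getD (.sp 0)), restrict y (w (θ.getD (.sp 0)) y))
  have hU : ∀ θ y s, κ y = some s → adm (.U s) θ → e θ y = (.U s, restrict y (w0 y)) := by
    intro θ y s h1 h2
    simp only [e]
    rw [if_pos ⟨s, h1, h2⟩, h1]
    rfl
  have hT : ∀ τ y, (¬ ∃ s, κ y = some s ∧ adm (.U s) (some τ)) →
      e (some τ) y = (.T τ, restrict y (w τ y)) := by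
    intro τ y h
    simp only [e]
    rw [if_neg h]
    rfl
  have hcases : ∀ θ y, RPt ψ I θ y → (∃ s, κ y = some s ∧ adm (.U s) θ) ∨
      ∃ τ, θ = some τ ∧ ¬ ∃ s, κ y = some s ∧ adm (.U s) (some τ) := by
    intro θ y h
    cases θ with
    | none =>
      obtain ⟨s, hs⟩ := Option.ne_none_iff_exists'.1 (hc y h)
      exact Or.inl ⟨s, hs, trivial⟩
    | some τ =>
      by_cases h2 : ∃ s, κ y = some s ∧ adm (.U s) (some τ)
      · exact Or.inl h2
      · exact Or.inr ⟨τ, rfl, h2⟩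
  have hres : ∀ y W, (restrict y W).map Prod.fst = W := by
    intro y W; simp [restrict, List.map_map, Function.comp_def]
  have hself : ∀ y W, SatL y (restrict y W) := fun y W => satL_restrict_iff.2 fun _ _ => rfl
  refine ⟨e, ⟨?_, ?_, ?_⟩, ?_, ?_, ?_⟩
  · intro θ y h
    rcases hcases θ y h with ⟨s, h1, h2⟩ | ⟨τ, rfl, h1⟩
    · rw [hU θ y s h1 h2]
      have h3 : SatL y (restrict y (w0 y) ++ kindLits (.U s)) :=
        satL_append.2 ⟨hself _ _, satL_kindLits h h2⟩
      exact ⟨hb y s h1, by rw [hres]; exact ha0 y, noConf_of_satL h3 h3⟩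
    · rw [hT τ y h1]
      have h3 : SatL y (restrict y (w τ y) ++ kindLits (.T τ)) :=
        satL_append.2 ⟨hself _ _, h.2⟩
      exact ⟨h.1, by rw [hres]; exact ha τ y h.1, noConf_of_satL h3 h3⟩
  · intro θ y h
    rcases hcases θ y h with ⟨s, h1, h2⟩ | ⟨τ, rfl, h1⟩
    · rw [hU θ y s h1 h2]; exact ⟨h2, hself _ _⟩
    · rw [hT τ y h1]; exact ⟨rfl, hself _ _⟩
  · intro θ y θ' y' h h' hm
    rcases hcases θ y h with ⟨s, h1, h2⟩ | ⟨τ, rfl, h1⟩
    · rw [hU θ y s h1 h2] at hm ⊢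
      have h3 := satL_restrict_iff.1 hm.2
      obtain ⟨h4, h5⟩ := hd y y' h3
      rw [hU θ' y' s (h5.trans h1) hm.1, h4, restrict_congr h3]
    · rw [hT τ y h1] at hm ⊢
      have h6 : θ' = some τ := hm.1
      subst h6
      have h3 := satL_restrict_iff.1 hm.2
      obtain ⟨h4, h5⟩ := he τ y y' h h' h1 h3
      rw [hT τ y' h5, h4, restrict_congr h3]
  · intro s L hL θ y _ hm
    obtain ⟨h1, h2⟩ := hL y hm.2
    rw [hU θ y s h1 hm.1, h2, restrict_of_satL hm.2]
  · intro τ L hL θ y h hm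
    have h6 : θ = some τ := hm.1
    subst h6
    obtain ⟨h1, h2⟩ := hL y h hm.2
    rw [hT τ y h1, h2, restrict_of_satL hm.2]
  · intro θ y s L h he
    rcases hcases θ y h with ⟨s', h1, h2⟩ | ⟨τ, rfl, h1⟩
    · rw [hU θ y s' h1 h2] at he
      simp only [Prod.mk.injEq, Kind.U.injEq] at he
      exact ⟨he.1 ▸ h1, he.2.symm⟩
    · rw [hT τ y h1] at he
      simp at he

/-- Helly property inside a region -/
theorem region_helly (ψ : CNF) (I : List ℕ) (F : Set (Kind × List Lit))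
    (hOK : ∀ X ∈ F, kindOK ψ I X.1)
    (hL : ∀ X ∈ F, ∀ X' ∈ F, noConf (X.2 ++ kindLits X.1) (X'.2 ++ kindLits X'.1) = true)
    (hK : ∀ X ∈ F, ∀ X' ∈ F, ∀ τ, X'.1 = .T τ → adm X.1 (some τ)) :
    ∃ θ y, RPt ψ I θ y ∧ ∀ X ∈ F, RMem θ y X := by
  obtain ⟨y, hy⟩ := exists_satL ((fun X => X.2 ++ kindLits X.1) '' F) (by
    rintro _ ⟨X, hX, rfl⟩ _ ⟨X', hX', rfl⟩
    exact hL X hX X' hX')
  have hy' : ∀ X ∈ F, SatL y X.2 ∧ SatL y (kindLits X.1) := fun X hX =>
    satL_append.1 (hy _ ⟨X, hX, rfl⟩)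
  by_cases h : ∃ X' ∈ F, ∃ τ, X'.1 = .T τ
  · obtain ⟨X', hX', τ, hτ⟩ := h
    refine ⟨some τ, y, ⟨?_, ?_⟩, fun X hX => ⟨hK X hX X' hX' τ hτ, (hy' X hX).1⟩⟩
    · have := hOK X' hX'; rwa [hτ] at this
    · have := (hy' X' hX').2; rwa [hτ] at this
  · have hU : ∀ X ∈ F, ∃ s, X.1 = .U s := by
      intro X hX
      rcases hk : X.1 with s | τ
      · exact ⟨s, rfl⟩
      · exact absurd ⟨X, hX, τ, hk⟩ h
    by_cases h2 : Satisfies y ψ
    · refine ⟨none, y, h2, fun X hX => ⟨?_, (hy' X hX).1⟩⟩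
      obtain ⟨s, hs⟩ := hU X hX
      rw [hs]; trivial
    · simp only [Satisfies, not_forall] at h2
      obtain ⟨c, hc, h3⟩ := h2
      refine ⟨some (.cl c), y, ⟨hc, satL_negC.2 h3⟩, fun X hX => ⟨?_, (hy' X hX).1⟩⟩
      obtain ⟨s, hs⟩ := hU X hX
      rw [hs]; trivial

/-- two disjoint events whose kinds agree have complementary literals -/
theorem exists_conflict {ψ : CNF} {I : List ℕ} {n : List ℕ} {X X' : Kind × List Lit}
    (hX : RValid ψ I n X) (hX' : RValid ψ I n X')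
    (hd : ∀ θ y, RPt ψ I θ y → RMem θ y X → ¬ RMem θ y X')
    (h1 : ∀ τ, X'.1 = .T τ → adm X.1 (some τ)) (h2 : ∀ τ, X.1 = .T τ → adm X'.1 (some τ)) :
    ∃ i b, (i, b) ∈ X.2 ++ kindLits X.1 ∧ (i, !b) ∈ X'.2 ++ kindLits X'.1 := by
  by_contra hcon
  push Not at hcon
  have h3 : noConf (X.2 ++ kindLits X.1) (X'.2 ++ kindLits X'.1) = true := by
    rw [noConf_iff]
    rintro ⟨i, b⟩ hl ⟨i', b'⟩ hl' (rfl : i = i')
    by_contra hne
    have : b' = !b := by cases b <;> cases b' <;> simp_all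
    exact hcon i b hl (this ▸ hl')
  have h4 : noConf (X'.2 ++ kindLits X'.1) (X.2 ++ kindLits X.1) = true := by
    rw [noConf_iff] at h3 ⊢
    exact fun l hl l' hl' e => (h3 l' hl' l hl e.symm).symm
  obtain ⟨θ, y, h5, h6⟩ := region_helly ψ I {X, X'} (by
    rintro Y (rfl | rfl)
    exacts [hX.1, hX'.1]) (by
    rintro Y (rfl | rfl) Y' (rfl | rfl)
    exacts [hX.2.2, h3, h4, hX'.2.2]) (by
    rintro Y (rfl | rfl) Y' (rfl | rfl) τ hτ
    · rw [hτ]; rfl
    · exact h1 τ hτ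
    · exact h2 τ hτ
    · rw [hτ]; rfl)
  exact hd θ y h5 (h6 X (by simp)) (h6 X' (by simp))

end Pool.Agent.MP_38a5c8_lc.H27
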