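import Pool.Agent.MP_38a5c8_lc.H27.Region

set_option autoImplicit false

namespace Pool.Agent.MP_38a5c8_lc.H27

open Pool.Agent.Shared.H27

/-- three variables that decide whether the clause of a type holds -/
def tyVars : Ty → List ℕ
  | .sp _ => [0, 0, 0]
  | .cl c => c.map Prod.fst

/-- the clause of the type holds -/
def tyGood : Ty → (ℕ → Bool) → Prop
  | .sp _, _ => True
  | .cl c, y => ∃ l ∈ c, y l.1 = l.2

/-- formulas with three literals in each clause and variables from `n` -/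
def Cnf3 (ψ : CNF) (n : List ℕ) : Prop := ∀ c ∈ ψ, c.length = 3 ∧ ∀ l ∈ c, l.1 ∈ n

theorem tyGood_congr {τ : Ty} {y y' : ℕ → Bool} (h : ∀ v ∈ tyVars τ, y' v = y v) :
    tyGood τ y' ↔ tyGood τ y := by
  cases τ with
  | sp s => rfl
  | cl c => exact exists_congr fun l => and_congr_right fun hl => by
              rw [h _ (List.mem_map_of_mem hl)]

theorem tyGood_of_satisfies {ψ : CNF} {I : List ℕ} {τ : Ty} {y : ℕ → Bool} (h : tyOK ψ I τ)
    (hy : Satisfies y ψ) : tyGood τ y := by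
  cases τ with
  | sp s => trivial
  | cl c => exact hy c h

theorem not_adm_of_tyGood {ψ : CNF} {I : List ℕ} {τ : Ty} {y : ℕ → Bool} {c0 : ℕ}
    (h : RPt ψ I (some τ) y) (hg : tyGood τ y) (hne : τ ≠ .sp c0) : ¬ adm (.U c0) (some τ) := by
  cases τ with
  | sp s => intro h2; exact hne (by simp only [adm] at h2; rw [h2])
  | cl c => exact absurd hg (satL_negC.1 h.2)

theorem tyVars_three {ψ : CNF} {I : List ℕ} {n : List ℕ} (hψ : Cnf3 ψ n) (hn : 0 ∈ n) {τ : Ty}
    (h : tyOK ψ I τ) : (tyVars τ).length = 3 ∧ ∀ v ∈ tyVars τ, v ∈ n := by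
  cases τ with
  | sp s => simpa [tyVars] using hn
  | cl c =>
    refine ⟨by simpa [tyVars] using (hψ c h).1, fun v hv => ?_⟩
    obtain ⟨l, hl, rfl⟩ := List.mem_map.1 hv
    exact (hψ c h).2 l hl

theorem six_append {n : List ℕ} {A B : List ℕ} (hA : A.length = 3 ∧ ∀ v ∈ A, v ∈ n)
    (hB : B.length = 3 ∧ ∀ v ∈ B, v ∈ n) : Six n (A ++ B) :=
  ⟨by simp [hA.1, hB.1], fun v hv => (List.mem_append.1 hv).elim (hA.2 v) (hB.2 v)⟩

theorem agree_of_mem {ψ : CNF} {I : List ℕ} {τ : Ty} {y y' : ℕ → Bool} {L : List Lit} {i : ℕ}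
    {b : Bool} (hm : (i, b) ∈ L ++ tyLits τ) (h : RPt ψ I (some τ) y) (h' : RPt ψ I (some τ) y')
    (ha : ∀ v ∈ L.map Prod.fst, y' v = y v) : y' i = y i := by
  rcases List.mem_append.1 hm with hm | hm
  · exact ha i (List.mem_map.2 ⟨_, hm, rfl⟩)
  · exact (h'.2 _ hm).trans (h.2 _ hm).symm

theorem val_of_mem {ψ : CNF} {I : List ℕ} {τ : Ty} {y : ℕ → Bool} {L : List Lit} {i : ℕ}
    {b : Bool} (hm : (i, b) ∈ L ++ tyLits τ) (h : RPt ψ I (some τ) y) (hL : SatL y L) :
    y i = b :=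
  satL_append.2 ⟨hL, h.2⟩ _ hm

/-- a selector that includes two given events and uses a given special index otherwise -/
def GoodSel (ψ : CNF) (I : List ℕ) (n : List ℕ) (star : Prop) (c0 : ℕ) (X1 X2 : Kind × List Lit)
    (e : Option Ty → (ℕ → Bool) → Kind × List Lit) : Prop :=
  RSel ψ I n e ∧ Incl ψ I e X1 ∧ Incl ψ I e X2 ∧
    ∀ θ y s L, RPt ψ I θ y → e θ y = (.U s, L) →
      (Kind.U s, L) = X1 ∨ (Kind.U s, L) = X2 ∨ (star ∧ s = c0)

section cases

variable {ψ : CNF} {I : List ℕ} {n : List ℕ} (hψ : Cnf3 ψ n) (hn : 0 ∈ n) {star : Prop}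
  (hstar : ¬ star → ¬ Sat ψ) {c0 : ℕ} (hc0 : c0 ∈ I)

include hψ hn hstar hc0 in
theorem goodSel_TT {τ1 τ2 : Ty} {L1 L2 : List Lit} (h1 : RValid ψ I n (.T τ1, L1))
    (h2 : RValid ψ I n (.T τ2, L2))
    (hd : ∀ θ y, RPt ψ I θ y → RMem θ y (.T τ1, L1) → ¬ RMem θ y (.T τ2, L2))
    (n1 : τ1 ≠ .sp c0) (n2 : τ2 ≠ .sp c0) :
    ∃ e, GoodSel ψ I n star c0 (.T τ1, L1) (.T τ2, L2) e := by
  classical
  obtain ⟨i, b, hib⟩ : ∃ i b, τ1 = τ2 → (i, b) ∈ L1 ++ tyLits τ1 ∧ (i, !b) ∈ L2 ++ tyLits τ2 := by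
    by_cases h : τ1 = τ2
    · obtain ⟨i, b, h3⟩ := exists_conflict h1 h2 hd
        (fun τ hτ => by cases hτ; simp [adm, h]) (fun τ hτ => by cases hτ; simp [adm, h])
      exact ⟨i, b, fun _ => h3⟩
    · exact ⟨0, true, fun h' => absurd h' h⟩
  let w0 : (ℕ → Bool) → List ℕ := fun _ => tyVars τ1 ++ tyVars τ2
  let κ : (ℕ → Bool) → Option ℕ := fun y =>
    if star ∧ tyGood τ1 y ∧ tyGood τ2 y then some c0 else none
  let w : Ty → (ℕ → Bool) → List ℕ := fun τ y =>
    if τ = τ1 ∧ (τ1 = τ2 → y i = b) then L1.map Prod.fst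
    else if τ = τ2 then L2.map Prod.fst else w0 y
  have hκ : ∀ y s, κ y = some s → star ∧ tyGood τ1 y ∧ tyGood τ2 y ∧ s = c0 := by
    intro y s h
    simp only [κ] at h
    split_ifs at h with h3
    · exact ⟨h3.1, h3.2.1, h3.2.2, (Option.some.inj h).symm⟩
  have hw0 : ∀ y, Six n (w0 y) := fun _ =>
    six_append (tyVars_three hψ hn h1.1) (tyVars_three hψ hn h2.1)
  have hdd : ∀ y y', (∀ v ∈ w0 y, y' v = y v) → w0 y' = w0 y ∧ κ y' = κ y := by
    intro y y' h
    refine ⟨rfl, ?_⟩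
    simp only [κ]
    rw [tyGood_congr fun v hv => h v (List.mem_append_left _ hv),
      tyGood_congr fun v hv => h v (List.mem_append_right _ hv)]
  have hno : ∀ τ y, (τ = τ1 ∨ τ = τ2) → RPt ψ I (some τ) y →
      ¬ ∃ s, κ y = some s ∧ adm (.U s) (some τ) := by
    rintro τ y hτ hp ⟨s, hs, ha⟩
    obtain ⟨-, g1, g2, rfl⟩ := hκ y s hs
    rcases hτ with rfl | rfl
    · exact not_adm_of_tyGood hp g1 n1 ha
    · exact not_adm_of_tyGood hp g2 n2 ha
  obtain ⟨e, he1, -, he3, he4⟩ := exists_rsel ψ I n w0 κ w hw0 (by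
      intro τ y _
      simp only [w]
      split_ifs
      exacts [h1.2.1, h2.2.1, hw0 y])
    (fun y s h => (hκ y s h).2.2.2 ▸ hc0) (by
      intro y hy
      have : star := by by_contra h; exact hstar h ⟨y, hy⟩
      simp [κ, this, tyGood_of_satisfies h1.1 hy, tyGood_of_satisfies h2.1 hy]) hdd (by
      intro τ y y' hp hp' hcov hag
      by_cases c1 : τ = τ1 ∧ (τ1 = τ2 → y i = b)
      · simp only [w, if_pos c1] at hag ⊢
        obtain ⟨rfl, c1'⟩ := c1
        have : τ = τ2 → y' i = b := fun h =>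
          (agree_of_mem (hib h).1 hp hp' hag).trans (c1' h)
        exact ⟨if_pos ⟨rfl, this⟩, hno _ _ (Or.inl rfl) hp'⟩
      · by_cases c2 : τ = τ2
        · simp only [w, if_neg c1, if_pos c2] at hag ⊢
          subst c2
          refine ⟨if_neg ?_, hno _ _ (Or.inr rfl) hp'⟩
          rintro ⟨h3, h4⟩
          exact c1 ⟨h3, fun h => (agree_of_mem (hib h).2 hp hp' hag).symm.trans (h4 h)⟩
        · have c3 : τ ≠ τ1 := by
            rintro rfl
            exact c1 ⟨rfl, fun h => absurd h c2⟩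
          simp only [w, c3, c2, false_and, if_false] at hag ⊢
          refine ⟨rfl, ?_⟩
          rw [(hdd y y' hag).2]
          exact hcov)
  refine ⟨e, he1, he3 _ _ fun y hp hL => ⟨hno _ _ (Or.inl rfl) hp, ?_⟩,
    he3 _ _ fun y hp hL => ⟨hno _ _ (Or.inr rfl) hp, ?_⟩, fun θ y s L hp h => ?_⟩
  · exact if_pos ⟨rfl, fun h => val_of_mem (hib h).1 hp hL⟩
  · simp only [w]
    rw [if_neg, if_pos trivial]
    rintro ⟨h3, h4⟩
    have := val_of_mem (hib h3.symm).2 hp hL
    rw [h4 h3.symm] at this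
    simp at this
  · obtain ⟨g, -, -, g2⟩ := hκ y s (he4 θ y s L hp h).1
    exact Or.inr (Or.inr ⟨g, g2⟩)

include hstar hc0 in
theorem goodSel_UU {s1 s2 : ℕ} {L1 L2 : List Lit} (h1 : RValid ψ I n (.U s1, L1))
    (h2 : RValid ψ I n (.U s2, L2))
    (hd : ∀ θ y, RPt ψ I θ y → RMem θ y (.U s1, L1) → ¬ RMem θ y (.U s2, L2)) :
    ∃ e, GoodSel ψ I n star c0 (.U s1, L1) (.U s2, L2) e := by
  classical
  obtain ⟨i, b, hi1, hi2⟩ := exists_conflict h1 h2 hd (fun τ hτ => by cases hτ)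
    (fun τ hτ => by cases hτ)
  simp only [kindLits, List.append_nil] at hi1 hi2
  let w0 : (ℕ → Bool) → List ℕ := fun y => if y i = b then L1.map Prod.fst else L2.map Prod.fst
  let κ : (ℕ → Bool) → Option ℕ := fun y =>
    if SatL y L1 then some s1 else if SatL y L2 then some s2 else if star then some c0 else none
  have hw0 : ∀ y, Six n (w0 y) := by
    intro y
    simp only [w0]
    split_ifs
    exacts [h1.2.1, h2.2.1]
  have hs1 : ∀ y, SatL y L1 → y i = b := fun y h => h _ hi1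
  have hs2 : ∀ y, SatL y L2 → y i ≠ b := fun y h => by rw [h _ hi2]; cases b <;> simp
  have hdd : ∀ y y', (∀ v ∈ w0 y, y' v = y v) → w0 y' = w0 y ∧ κ y' = κ y := by
    intro y y' h
    by_cases c : y i = b
    · simp only [w0, if_pos c] at h ⊢
      have c' : y' i = b := (h i (List.mem_map.2 ⟨_, hi1, rfl⟩)).trans c
      refine ⟨if_pos c', ?_⟩
      simp only [κ]
      rw [satL_congr h, if_neg (fun g => hs2 y g c), if_neg (fun g => hs2 y' g c')]
    · simp only [w0, if_neg c] at h ⊢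
      have c' : y' i ≠ b := by rw [h i (List.mem_map.2 ⟨_, hi2, rfl⟩)]; exact c
      refine ⟨if_neg c', ?_⟩
      simp only [κ]
      rw [satL_congr h, if_neg (fun g => c (hs1 y g)), if_neg (fun g => c' (hs1 y' g))]
  obtain ⟨e, he1, he2, -, he4⟩ := exists_rsel ψ I n w0 κ (fun _ => w0) hw0 (fun _ y _ => hw0 y)
    (by
      intro y s h
      simp only [κ] at h
      split_ifs at h <;> cases h
      exacts [h1.1, h2.1, hc0]) (by
      intro y hy
      have : star := by by_contra h; exact hstar h ⟨y, hy⟩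
      simp only [κ]
      split_ifs <;> simp) hdd (by
      intro τ y y' _ _ hcov hag
      refine ⟨(hdd y y' hag).1, ?_⟩
      rw [(hdd y y' hag).2]
      exact hcov)
  refine ⟨e, he1, he2 _ _ fun y hL => ⟨if_pos hL, if_pos (hs1 y hL)⟩,
    he2 _ _ fun y hL => ⟨?_, if_neg (hs2 y hL)⟩, fun θ y s L hp h => ?_⟩
  · simp only [κ]
    rw [if_neg (fun g => hs2 y hL (hs1 y g)), if_pos hL]
  · obtain ⟨g1, g2⟩ := he4 θ y s L hp h
    simp only [κ] at g1
    split_ifs at g1 with d1 d2 d3 <;> cases g1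
    · left
      simp only [w0, if_pos (hs1 y d1)] at g2
      rw [g2, restrict_of_satL d1]
    · right; left
      simp only [w0, if_neg (hs2 y d2)] at g2
      rw [g2, restrict_of_satL d2]
    · exact Or.inr (Or.inr ⟨d3, rfl⟩)

include hψ hn hstar hc0 in
theorem goodSel_UT {s1 : ℕ} {τ2 : Ty} {L1 L2 : List Lit} (h1 : RValid ψ I n (.U s1, L1))
    (h2 : RValid ψ I n (.T τ2, L2))
    (hd : ∀ θ y, RPt ψ I θ y → RMem θ y (.U s1, L1) → ¬ RMem θ y (.T τ2, L2))
    (n2 : τ2 ≠ .sp c0) :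
    ∃ e, GoodSel ψ I n star c0 (.U s1, L1) (.T τ2, L2) e := by
  classical
  obtain ⟨i, b, hi, hib⟩ : ∃ i b, i ∈ n ∧
      (adm (.U s1) (some τ2) → (i, b) ∈ L1 ∧ (i, !b) ∈ L2 ++ tyLits τ2) := by
    by_cases h : adm (.U s1) (some τ2)
    · obtain ⟨i, b, h3, h4⟩ := exists_conflict h1 h2 hd
        (fun τ hτ => by cases hτ; exact h) (fun τ hτ => by cases hτ)
      simp only [kindLits, List.append_nil] at h3
      exact ⟨i, b, h1.2.1.2 i (List.mem_map.2 ⟨_, h3, rfl⟩), fun _ => ⟨h3, h4⟩⟩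
    · exact ⟨0, true, hn, fun h' => absurd h' h⟩
  let side : (ℕ → Bool) → Prop := fun y => adm (.U s1) (some τ2) → y i = b
  let w0 : (ℕ → Bool) → List ℕ := fun y =>
    if side y then L1.map Prod.fst else [i, i, i] ++ tyVars τ2
  let κ : (ℕ → Bool) → Option ℕ := fun y =>
    if SatL y L1 then some s1 else if star ∧ (side y ∨ tyGood τ2 y) then some c0 else none
  let w : Ty → (ℕ → Bool) → List ℕ := fun τ y =>
    if τ = τ2 then (if adm (.U s1) (some τ2) ∧ side y then L1.map Prod.fst else L2.map Prod.fst)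
    else w0 y
  have hs1 : ∀ y, SatL y L1 → side y := fun y h g => h _ (hib g).1
  have hw0 : ∀ y, Six n (w0 y) := by
    intro y
    simp only [w0]
    split_ifs
    exacts [h1.2.1, six_append (by simpa using hi) (tyVars_three hψ hn h2.1)]
  have hside : ∀ y y', side y → (∀ v ∈ L1.map Prod.fst, y' v = y v) → side y' :=
    fun y y' c h g => (h i (List.mem_map.2 ⟨_, (hib g).1, rfl⟩)).trans (c g)
  have hdd : ∀ y y', (∀ v ∈ w0 y, y' v = y v) → w0 y' = w0 y ∧ κ y' = κ y := by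
    intro y y' h
    by_cases c : side y
    · simp only [w0, if_pos c] at h ⊢
      have c' := hside y y' c h
      refine ⟨if_pos c', ?_⟩
      simp only [κ]
      rw [satL_congr h]
      simp [c, c']
    · simp only [w0, if_neg c] at h ⊢
      have c' : ¬ side y' := fun g => c fun g2 => (h i (by simp)).symm.trans (g g2)
      refine ⟨if_neg c', ?_⟩
      simp only [κ]
      rw [if_neg (fun g => c (hs1 y g)), if_neg (fun g => c' (hs1 y' g)),
        tyGood_congr fun v hv => h v (List.mem_append_right _ hv)]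
      simp [c, c']
  have hno : ∀ y, ¬ (adm (.U s1) (some τ2) ∧ side y) → RPt ψ I (some τ2) y →
      ¬ ∃ s, κ y = some s ∧ adm (.U s) (some τ2) := by
    rintro y hc hp ⟨s, hs, ha⟩
    simp only [κ] at hs
    split_ifs at hs with d1 d2 <;> cases hs
    · exact hc ⟨ha, hs1 y d1⟩
    · rcases d2.2 with d | d
      · have : ¬ adm (.U s1) (some τ2) := fun g => hc ⟨g, d⟩
        cases τ2 with
        | sp s => exact n2 (by simp only [adm] at ha; rw [ha])
        | cl c => exact this trivial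
      · exact not_adm_of_tyGood hp d n2 ha
  obtain ⟨e, he1, he2, he3, he4⟩ := exists_rsel ψ I n w0 κ w hw0 (by
      intro τ y _
      simp only [w]
      split_ifs
      exacts [h1.2.1, h2.2.1, hw0 y])
    (by
      intro y s h
      simp only [κ] at h
      split_ifs at h <;> cases h
      exacts [h1.1, hc0]) (by
      intro y hy
      have : star := by by_contra h; exact hstar h ⟨y, hy⟩
      simp only [κ, this, tyGood_of_satisfies h2.1 hy, or_true, and_self, if_true]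
      split_ifs <;> simp) hdd (by
      intro τ y y' hp hp' hcov hag
      by_cases c1 : τ = τ2
      · subst c1
        by_cases c2 : adm (.U s1) (some τ) ∧ side y
        · simp only [w, if_true, if_pos c2] at hag ⊢
          refine ⟨if_pos ⟨c2.1, hside y y' c2.2 hag⟩, ?_⟩
          rw [(hdd y y' (by simpa only [w0, if_pos c2.2] using hag)).2]
          exact hcov
        · simp only [w, if_true, if_neg c2] at hag ⊢
          have c3 : ¬ (adm (.U s1) (some τ) ∧ side y') := fun g =>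
            c2 ⟨g.1, fun g2 => (agree_of_mem (hib g2).2 hp hp' hag).symm.trans (g.2 g2)⟩
          exact ⟨if_neg c3, hno y' c3 hp'⟩
      · simp only [w, if_neg c1] at hag ⊢
        refine ⟨(hdd y y' hag).1, ?_⟩
        rw [(hdd y y' hag).2]
        exact hcov)
  refine ⟨e, he1, he2 _ _ fun y hL => ⟨if_pos hL, if_pos (hs1 y hL)⟩,
    he3 _ _ fun y hp hL => ?_, fun θ y s L hp h => ?_⟩
  · have c3 : ¬ (adm (.U s1) (some τ2) ∧ side y) := by
      rintro ⟨g1, g2⟩
      have := val_of_mem (hib g1).2 hp hL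
      rw [g2 g1] at this
      simp at this
    refine ⟨hno y c3 hp, ?_⟩
    simp only [w, if_true, if_neg c3]
  · obtain ⟨g1, g2⟩ := he4 θ y s L hp h
    simp only [κ] at g1
    split_ifs at g1 with d1 d2 <;> cases g1
    · left
      simp only [w0, if_pos (hs1 y d1)] at g2
      rw [g2, restrict_of_satL d1]
    · exact Or.inr (Or.inr ⟨d2.1, rfl⟩)

theorem GoodSel.symm {X1 X2 : Kind × List Lit} {e : Option Ty → (ℕ → Bool) → Kind × List Lit}
    (h : GoodSel ψ I n star c0 X1 X2 e) : GoodSel ψ I n star c0 X2 X1 e :=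
  ⟨h.1, h.2.2.1, h.2.1, fun θ y s L hp he => by
    rcases h.2.2.2 θ y s L hp he with g | g | g
    exacts [Or.inr (Or.inl g), Or.inl g, Or.inr (Or.inr g)]⟩

include hψ hn hstar hc0 in
theorem exists_goodSel {X1 X2 : Kind × List Lit} (h1 : RValid ψ I n X1) (h2 : RValid ψ I n X2)
    (hd : ∀ θ y, RPt ψ I θ y → RMem θ y X1 → ¬ RMem θ y X2)
    (n1 : X1.1 ≠ .T (.sp c0)) (n2 : X2.1 ≠ .T (.sp c0)) :
    ∃ e, GoodSel ψ I n star c0 X1 X2 e := by
  obtain ⟨s1 | τ1, L1⟩ := X1 <;> obtain ⟨s2 | τ2, L2⟩ := X2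
  · exact goodSel_UU hstar hc0 h1 h2 hd
  · exact goodSel_UT hψ hn hstar hc0 h1 h2 hd fun h => n2 (by rw [h])
  · obtain ⟨e, he⟩ := goodSel_UT hψ hn hstar hc0 h2 h1 (fun θ y hp g1 g2 => hd θ y hp g2 g1)
      fun h => n1 (by rw [h])
    exact ⟨e, he.symm⟩
  · exact goodSel_TT hψ hn hstar hc0 h1 h2 hd (fun h => n1 (by rw [h])) fun h => n2 (by rw [h])

end cases

end Pool.Agent.MP_38a5c8_lc.H27
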